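import Pool.Agent.LibCF.Fair
import Pool.Agent.LibSP.LemKA

/-!
A block of three heavily connected vertices is invisible in nonpositive degree.
-/

set_option autoImplicit false

namespace Pool.Agent.LibCF

open Pool.Agent.LibSP

variable {K : Type} [Field K] {n r : ℕ}

lemma dot_update (w v : Idx n r → ℤ) (i₀ : Idx n r) (c : ℤ) :
    dot (Function.update w i₀ c) v = dot w v + (c - w i₀) * v i₀ := by
  rw [dot_split (Function.update w i₀ c) v i₀, dot_split w v i₀, Function.update_self]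
  have : ∑ i ∈ Finset.univ.erase i₀, Function.update w i₀ c i * v i =
      ∑ i ∈ Finset.univ.erase i₀, w i * v i := by
    refine Finset.sum_congr rfl fun i hi => ?_
    rw [Function.update_of_ne (Finset.ne_of_mem_erase hi)]
  rw [this]
  ring

lemma dot_neg' (w v : Idx n r → ℤ) : dot (fun i => -w i) v = -dot w v := by
  simp [dot, Finset.sum_neg_distrib]

lemma dot_coord (i : Idx n r) (v : Idx n r → ℤ) : dot (Pi.single i 1) v = v i := by
  rw [dot, Finset.sum_eq_single i]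
  · simp
  · intro j _ hj
    simp [hj]
  · simp

/-- The width of the lowest slice. -/
theorem spread {x : Idx n r → K} (hx : AlgebraicIndependent ℤ x) (i₀ : Idx n r)
    (p q w : Idx n r → ℤ) (hp : p i₀ = 0) (hq : q i₀ = 0) (hw : w i₀ = 0)
    (hpq : dot w p < dot w q) {L L' : Lp n r} (h : ev (bmut x i₀ p q) L' = ev x L) {a : ℤ}
    (ha : ∀ m, L.coeff m ≠ 0 → -a ≤ m i₀) (hex : ∃ m, L.coeff m ≠ 0 ∧ m i₀ = -a) :
    ∃ m m', L.coeff m ≠ 0 ∧ L.coeff m' ≠ 0 ∧ m i₀ = -a ∧ m' i₀ = -a ∧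
      a * (dot w q - dot w p) ≤ dot w m' - dot w m := by
  classical
  obtain ⟨m₁, hm₁, hm₁a⟩ := hex
  set S := L.coeff.support.filter fun m => m i₀ = -a with hS
  have hSne : S.Nonempty := ⟨m₁, by simp [hS, hm₁, hm₁a]⟩
  obtain ⟨m, hmS, hmin⟩ := S.exists_min_image (fun m => dot w m) hSne
  obtain ⟨m', hmS', hmax⟩ := S.exists_max_image (fun m => dot w m) hSne
  have hm : L.coeff m ≠ 0 ∧ m i₀ = -a := by simpa [hS] using hmS
  have hm' : L.coeff m' ≠ 0 ∧ m' i₀ = -a := by simpa [hS] using hmS'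
  refine ⟨m, m', hm.1, hm'.1, hm.2, hm'.2, ?_⟩
  -- a bound for the weights
  obtain ⟨N, hN0, hN⟩ : ∃ N : ℤ, 0 ≤ N ∧ ∀ v, L.coeff v ≠ 0 → |dot w v| ≤ N := by
    refine ⟨∑ v ∈ L.coeff.support, |dot w v|, Finset.sum_nonneg fun _ _ => abs_nonneg _, ?_⟩
    intro v hv
    exact Finset.single_le_sum (f := fun v => |dot w v|) (fun _ _ => abs_nonneg _)
      (Finsupp.mem_support_iff.2 hv)
  have hwN : ∀ v : Idx n r → ℤ, dot (Function.update w i₀ (2 * N)) v = dot w v + 2 * N * v i₀ := by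
    intro v
    rw [dot_update, hw, sub_zero]
  have hwN' : ∀ v : Idx n r → ℤ, dot (Function.update (fun i => -w i) i₀ (2 * N)) v =
      -dot w v + 2 * N * v i₀ := by
    intro v
    rw [dot_update, dot_neg', hw, neg_zero, sub_zero]
  have h1 := lead_bmut hx i₀ p q (Function.update w i₀ (2 * N)) hp hq
    (by rw [hwN, hwN, hp, hq]; linarith) L L' h m hm.1 (by
      intro v hv
      rw [hwN, hwN]
      rcases (ha v hv).eq_or_lt with hva | hva
      · have := hmin v (by simp [hS, hv, ← hva])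
        rw [hm.2, ← hva]
        linarith
      · have e1 := abs_le.1 (hN v hv)
        have e2 := abs_le.1 (hN m hm.1)
        rw [hm.2]
        have : -a + 1 ≤ v i₀ := hva
        nlinarith)
  have h2 := lead_bmut hx i₀ q p (Function.update (fun i => -w i) i₀ (2 * N)) hq hp
    (by rw [hwN', hwN', hp, hq]; linarith) L L' (by rw [← bmut_comm]; exact h) m' hm'.1 (by
      intro v hv
      rw [hwN', hwN']
      rcases (ha v hv).eq_or_lt with hva | hva
      · have := hmax v (by simp [hS, hv, ← hva])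
        rw [hm'.2, ← hva]
        linarith
      · have e1 := abs_le.1 (hN v hv)
        have e2 := abs_le.1 (hN m' hm'.1)
        rw [hm'.2]
        have : -a + 1 ≤ v i₀ := hva
        nlinarith)
  have h3 := h1.2 _ h2.1
  rw [dot_tr i₀ p _ hp m] at h3
  have h4 : dot (Function.update (Function.update w i₀ (2 * N)) i₀
      (dot (Function.update w i₀ (2 * N)) p - Function.update w i₀ (2 * N) i₀)) (tr i₀ q m') =
      dot (Function.update (Function.update w i₀ (2 * N)) i₀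
      (dot (Function.update w i₀ (2 * N)) q - Function.update w i₀ (2 * N) i₀)) (tr i₀ q m') +
      (dot w p - dot w q) * tr i₀ q m' i₀ := by
    rw [dot_update (Function.update w i₀ (2 * N)), dot_update (Function.update w i₀ (2 * N)),
      hwN q, hwN p, hp, hq]
    ring
  rw [h4, dot_tr i₀ q _ hq m', hwN, hwN, hm.2, hm'.2] at h3
  have h5 : tr i₀ q m' i₀ = a := by
    rw [tr, Function.update_self, hm'.2, neg_neg]
  rw [h5] at h3
  linarith

lemma exists_low (i : Idx n r) {L : Lp n r} (h : L ≠ 0) :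
    ∃ a : ℤ, (∀ m, L.coeff m ≠ 0 → -a ≤ m i) ∧ ∃ m, L.coeff m ≠ 0 ∧ m i = -a := by
  obtain ⟨m₀, h₀, h₁⟩ := exists_min (Pi.single i 1) h
  refine ⟨-(m₀ i), fun m hm => ?_, m₀, h₀, by ring⟩
  have := h₁ m hm
  rw [dot_coord, dot_coord] at this
  linarith

/-- The variable with index `i` of a quiver without coefficients. -/
abbrev vi (i : Fin 9) : Idx 9 0 := Sum.inl i

/-- The Block Lemma. -/
theorem block {t : Seed K 9 0} (ht : Fair t)
    (c6 : ∀ i, t.B (vi i) 6 = ![0, 0, 0, 0, -2, 0, 0, -6, 6] i)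
    (c7 : ∀ i, t.B (vi i) 7 = ![0, 0, 0, 0, 0, 2, 6, 0, -6] i)
    (c8 : ∀ i, t.B (vi i) 8 = ![0, 0, 0, 0, 2, -2, -6, 6, 0] i)
    {L : Lp 9 0} (hL : ∀ k : Fin 9, Lau (t.mut k).x (ev t.x L)) {D : ℤ} (hD : D ≤ 0)
    (hom : ∀ m, L.coeff m ≠ 0 → m (vi 6) + m (vi 7) + m (vi 8) = D) :
    ∀ m, L.coeff m ≠ 0 → m (vi 6) = 0 ∧ m (vi 7) = 0 ∧ m (vi 8) = 0 := by
  by_cases h0 : L = 0
  · intro m hm
    rw [h0] at hm
    simp at hm
  obtain ⟨a6, l6, e6⟩ := exists_low (vi 6) h0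
  obtain ⟨a7, l7, e7⟩ := exists_low (vi 7) h0
  obtain ⟨a8, l8, e8⟩ := exists_low (vi 8) h0
  obtain ⟨L6, -, h6⟩ := hL 6
  obtain ⟨L7, -, h7⟩ := hL 7
  obtain ⟨L8, -, h8⟩ := hL 8
  rw [mut_x] at h6 h7 h8
  have s6 := spread ht.ai (vi 6) _ _ (Pi.single (vi 7) 1) (by simp [c6]) (by simp [c6])
    (by simp [vi]) (by rw [dot_coord, dot_coord]; simp [c6]) h6 l6 e6
  have s7 := spread ht.ai (vi 7) _ _ (Pi.single (vi 8) 1) (by simp [c7]) (by simp [c7])
    (by simp [vi]) (by rw [dot_coord, dot_coord]; simp [c7]) h7 l7 e7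
  have s8 := spread ht.ai (vi 8) _ _ (Pi.single (vi 6) 1) (by simp [c8]) (by simp [c8])
    (by simp [vi]) (by rw [dot_coord, dot_coord]; simp [c8]) h8 l8 e8
  simp only [dot_coord, c6, c7, c8] at s6 s7 s8
  obtain ⟨m, m', hm, hm', hma, hma', s6⟩ := s6
  obtain ⟨u, u', hu, hu', hua, hua', s7⟩ := s7
  obtain ⟨v, v', hv, hv', hva, hva', s8⟩ := s8
  have b6 : 6 * a6 ≤ m' (vi 7) - m (vi 7) := by
    simp at s6
    linarith
  have b7 : 6 * a7 ≤ u' (vi 8) - u (vi 8) := by
    simp at s7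
    linarith
  have b8 : 6 * a8 ≤ v' (vi 6) - v (vi 6) := by
    simp at s8
    linarith
  have q1 := hom m' hm'
  have q2 := hom u' hu'
  have q3 := hom v' hv'
  have r1 := l7 m hm
  have r2 := l8 u hu
  have r3 := l6 v hv
  have r4 := l8 m' hm'
  have r5 := l6 u' hu'
  have r6 := l7 v' hv'
  intro x hx
  have x6 := l6 x hx
  have x7 := l7 x hx
  have x8 := l8 x hx
  have xx := hom x hx
  omega

end Pool.Agent.LibCF
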