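import Pool.Agent.LibSP.Defs

/-!
A quiver on nine vertices, without coefficient variables.
-/

set_option autoImplicit false

namespace Pool.Agent.LibCF

open Pool.Agent.LibSP

/-- The skew-symmetric `9 × 9` exchange matrix (no coefficient variables). -/
def quiB : EMat 9 0 :=
  Sum.elim
    ![![0, -1, -2, 2, 0, 0, 0, 0, 0],
      ![1, 0, 0, -2, 1, 0, 0, 0, 0],
      ![2, 0, 0, -1, 0, -1, 0, 0, 0],
      ![-2, 2, 1, 0, 0, 0, 0, 0, 0],
      ![0, -1, 0, 0, 0, 0, -2, 0, 2],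
      ![0, 0, 1, 0, 0, 0, 0, 2, -2],
      ![0, 0, 0, 0, 2, 0, 0, 6, -6],
      ![0, 0, 0, 0, 0, -2, -6, 0, 6],
      ![0, 0, 0, 0, -2, 2, 6, -6, 0]]
    Fin.elim0

end Pool.Agent.LibCF
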