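import Pool.Agent.LibCF.Ineq

/-!
Parity of the elements of degree zero.
-/

set_option autoImplicit false

namespace Pool.Agent.LibCF

open Pool.Agent.LibSP

lemma hg_cv {θ : K₁ →+* K₁} (hθ : ∀ i, Hg θ (S₁.x i) (D2 i)) {y : K₁} (hy : IsCV y) :
    ∃ k : ℕ, Hg θ y (k, 0) := by
  obtain ⟨s, hs, k, rfl⟩ := hy
  have hf := fair_of_reach fair_S₁ hs
  -- the second component of the degree is zero
  have key : ∃ D' : Idx 9 0 → ℤ × ℤ, (∀ k, ∑ i, s.B i k • D' i = 0) ∧
      (∀ i, Hg θ (s.x i) (D' i)) ∧ ∀ i, (D' i).2 = 0 := by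
    clear hf k
    induction hs with
    | refl =>
      refine ⟨D2, D2_balanced, hθ, fun i => ?_⟩
      rcases i with i | i
      · fin_cases i <;> rfl
      · exact i.elim0
    | @step s k hs ih =>
      obtain ⟨E, hE, hx, h2⟩ := ih
      have hg : Fair s := fair_of_reach fair_S₁ hs
      have hE2 : ∀ p : Idx 9 0 → ℤ, (∑ i, p i • E i).2 = 0 := by
        intro p
        rw [Prod.snd_sum]
        refine Finset.sum_eq_zero fun i _ => ?_
        rw [Prod.smul_snd, h2, smul_zero]
      refine ⟨Function.update E (Sum.inl k)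
        ((∑ i, max (s.B i k) 0 • E i) - E (Sum.inl k)), fun j => ?_, fun i => ?_, fun i => ?_⟩
      · exact balanced_mut hg.ss k E hE j
      · rw [mut_x, bmut]
        rcases eq_or_ne i (Sum.inl k) with rfl | hi
        · rw [Function.update_self, Function.update_self]
          refine Hg.div (Hg.add (Hg.mono hx _) ?_) (hx _)
          have h1 : deg E (fun i => max (s.B i k) 0) = deg E (fun i => max (-s.B i k) 0) := by
            rw [deg, deg, ← sub_eq_zero, ← Finset.sum_sub_distrib, ← hE k]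
            refine Finset.sum_congr rfl fun i _ => ?_
            rw [← sub_smul]
            congr 1
            rcases le_total (s.B i k) 0 with h | h
            · rw [max_eq_right h, max_eq_left (by linarith)]; ring
            · rw [max_eq_left h, max_eq_right (by linarith)]; ring
          have h2 := Hg.mono hx (fun i => max (-s.B i k) 0)
          rw [← h1] at h2
          exact h2
        · rw [Function.update_of_ne hi, Function.update_of_ne hi]
          exact hx i
      · rcases eq_or_ne i (Sum.inl k) with rfl | hi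
        · rw [Function.update_self, Prod.snd_sub, hE2, h2, sub_zero]
        · rw [Function.update_of_ne hi, h2]
  obtain ⟨D', -, h1, h2⟩ := key
  have hd := h1 (Sum.inl k)
  have e2 := h2 (Sum.inl k)
  obtain ⟨d1, d2, hdd⟩ : ∃ d1 d2, D' (Sum.inl k) = (d1, d2) := ⟨_, _, rfl⟩
  rw [hdd] at hd e2
  change d2 = 0 at e2
  subst e2
  rcases lt_or_ge d1 0 with h | h
  · exfalso
    have hU : Univ S₁ (s.x (Sum.inl k)) := fun t ht => laurent_quiver fair_S₁ hs ht _
    have := (descend hθ hU h.le hd emb_init Reach.refl).2 (ne_zero_of_ai hf.ai _)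
    omega
  · obtain ⟨m, rfl⟩ := Int.eq_ofNat_of_zero_le h
    exact ⟨m, hd⟩

/-- Homogeneous elements of degree zero satisfy `Ok`. -/
theorem ok_of_cv {C : Set K₁} (hC : StronglyPositiveBasis S₁ C) {θ : K₁ →+* K₁}
    (hθ : ∀ i, Hg θ (S₁.x i) (D2 i)) {y : K₁} (hy : IsCV y) (h0 : Hg θ y (0, 0)) :
    ∃ L d, Ok L d ∧ iota (ev S₀.x L) = y := by
  obtain ⟨s, hs, k, hk⟩ := id hy
  have hU : Univ S₁ y := by
    rw [hk]
    exact fun t ht => laurent_quiver fair_S₁ hs ht _
  obtain ⟨v, hv, hvy⟩ := descend_univ hθ hU le_rfl h0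
  obtain ⟨L, -, hL⟩ := hv S₀ Reach.refl
  have hiL : iota (ev S₀.x L) = y := by rw [hL, hvy]
  have hInU : InU L := by
    rw [InU, hL]
    exact hv
  obtain ⟨θ₁, hθ₁⟩ := exists_theta quiB D1
  obtain ⟨d, hd⟩ := hg_of_reach fair_S₁ D1 D1_balanced hθ₁ hs (Sum.inl k)
  rw [← hk, ← hiL, ← ev_S₁] at hd
  have hh : HomL L d := by
    intro m hm
    have h1 := deg_of_hg fair_S₁.ai D1 hθ₁ hd (emM m) (by rwa [emL_coeff])
    rw [← h1, deg, deg, prod9_sum]
    obtain ⟨z6, z7, z8⟩ := emM_h m
    rw [z6, z7, z8]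
    simp only [emM_em, D1_em, zero_smul, add_zero]
  obtain ⟨α, hp⟩ := exists_pt hC (L := L) (by rw [hiL]; exact hy)
  refine ⟨L, d, ⟨hInU, hh, ?_, ?_, ?_, ?_⟩, hiL⟩
  · rintro rfl
    exact (n1' hInU hp hh).elim
  · rintro rfl
    rw [n2' hInU hp hh]
    exact Even.zero
  · rintro rfl
    rw [n3' hInU hp hh]
    exact Even.zero
  · rintro rfl
    obtain ⟨h1, h2, h3, h4⟩ := n4' hInU hp hh
    rw [eps, h1, h2, h3, h4]
    decide

end Pool.Agent.LibCF
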