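import Pool.Agent.LibCF.Even

/-!
Elements of the cluster algebra of degree zero have even `eps`.
-/

set_option autoImplicit false

namespace Pool.Agent.LibCF

open Pool.Agent.LibSP

lemma nz0 : ∀ i, S₀.x i ≠ 0 := ne_zero_of_ai good_S₀.ai

/-- Products of generators. -/
def gMon (θ : K₁ →+* K₁) (hθ : ∀ i, Hg θ (S₁.x i) (D2 i)) : Submonoid K₁ where
  carrier := {y | (∃ M ∈ okMon, iota (ev S₀.x M) = y) ∨ ∃ k : ℕ, 1 ≤ k ∧ Hg θ y (k, 0)}
  one_mem' := Or.inl ⟨1, okMon.one_mem, by rw [ev_one, map_one]⟩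
  mul_mem' := by
    have key : ∀ (v : K₀) (b : K₁) (k : ℕ), Hg θ b (k, 0) → Hg θ (iota v * b) (k, 0) := by
      intro v b k hb
      have h1 : Hg θ (iota v) (0, 0) := by
        rw [Hg, theta_iota hθ]
        simp
      have h2 := h1.mul hb
      simpa using h2
    rintro a b (⟨M, hM, rfl⟩ | ⟨k, hk, ha⟩) (⟨M', hM', rfl⟩ | ⟨k', hk', hb⟩)
    · exact Or.inl ⟨M * M', okMon.mul_mem hM hM', by rw [ev_mul nz0, map_mul]⟩
    · exact Or.inr ⟨k', hk', key _ _ _ hb⟩
    · rw [mul_comm]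
      exact Or.inr ⟨k, hk, key _ _ _ ha⟩
    · refine Or.inr ⟨k + k', by omega, ?_⟩
      have := ha.mul hb
      simpa using this

/-- `θ` as a linear map. -/
noncomputable def thL (θ : K₁ →+* K₁) : K₁ →ₗ[ℚ] K₁ where
  toFun := θ
  map_add' := map_add θ
  map_smul' c x := map_rat_smul θ c x

lemma zero_of_pos (θ : K₁ →+* K₁) {N : K₁}
    (hN : N ∈ AddSubgroup.closure {y : K₁ | ∃ k : ℕ, 1 ≤ k ∧ Hg θ y (k, 0)}) (h : θ N = N) :
    N = 0 := by
  have hind := Module.End.eigenspaces_iSupIndep (thL θ)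
  refine Submodule.disjoint_def.1 (hind 1) N ?_ ?_
  · rw [Module.End.mem_eigenspace_iff, one_smul]
    exact h
  · have hle : AddSubgroup.closure {y : K₁ | ∃ k : ℕ, 1 ≤ k ∧ Hg θ y (k, 0)} ≤
        (⨆ (j : ℚ) (_ : j ≠ 1), Module.End.eigenspace (thL θ) j).toAddSubgroup := by
      rw [AddSubgroup.closure_le]
      rintro y ⟨k, hk, hy⟩
      have h2 : (2 : ℚ) ^ k ≠ 1 := by
        have : (1 : ℚ) < 2 ^ k := one_lt_pow₀ (by norm_num) (by omega)
        exact this.ne'
      refine Submodule.mem_iSup_of_mem ((2 : ℚ) ^ k) (Submodule.mem_iSup_of_mem h2 ?_)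
      rw [Module.End.mem_eigenspace_iff]
      change θ y = _
      have h3 : ((2 : ℚ) ^ k) • y = ((2 : K₁) ^ k) * y := by
        have h4 : ((2 : ℚ) ^ k) = ((2 ^ k : ℕ) : ℚ) := by push_cast; rfl
        rw [h4]
        refine (Nat.cast_smul_eq_nsmul ℚ (2 ^ k) y).trans ?_
        rw [nsmul_eq_mul]
        push_cast
        rfl
      rw [hy, h3]
      simp
    exact hle hN

/-- Elements of the cluster algebra of degree zero have even `eps`. -/
theorem eps_even' {C : Set K₁} (hC : StronglyPositiveBasis S₁ C) {L : Lp 4 2}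
    (hL : iota (ev S₀.x L) ∈ clusterAlg S₁) : Even (eps L) := by
  obtain ⟨θ, hθ⟩ := exists_theta quiB D2
  have hgen : ∀ y ∈ {y | ∃ s, Reach S₁ s ∧ ∃ i, y = s.x i}, y ∈ gMon θ hθ := by
    rintro y ⟨s, hs, i, rfl⟩
    rcases i with i | j
    · have hcv : IsCV (s.x (Sum.inl i)) := ⟨s, hs, i, rfl⟩
      obtain ⟨k, hk⟩ := hg_cv hθ hcv
      rcases Nat.eq_zero_or_pos k with rfl | hk0
      · obtain ⟨M, d, hM, hy⟩ := ok_of_cv hC hθ hcv hk
        exact Or.inl ⟨M, ⟨d, hM⟩, hy⟩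
      · exact Or.inr ⟨k, hk0, hk⟩
    · exact j.elim0
  have hdec : ∀ u ∈ clusterAlg S₁, ∃ M ∈ AddSubgroup.closure (okMon : Set (Lp 4 2)),
      ∃ N ∈ AddSubgroup.closure {y : K₁ | ∃ k : ℕ, 1 ≤ k ∧ Hg θ y (k, 0)},
        u = iota (ev S₀.x M) + N := by
    intro u hu
    rw [clusterAlg, Subring.mem_closure_iff] at hu
    have h1 : u ∈ AddSubgroup.closure (gMon θ hθ : Set K₁) := by
      refine AddSubgroup.closure_mono ?_ hu
      exact (Submonoid.closure_le (S := gMon θ hθ)).2 hgen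
    clear hu
    induction h1 using AddSubgroup.closure_induction with
    | mem x hx =>
      rcases hx with ⟨M, hM, rfl⟩ | hx
      · exact ⟨M, AddSubgroup.subset_closure hM, 0, zero_mem _, by rw [add_zero]⟩
      · exact ⟨0, zero_mem _, x, AddSubgroup.subset_closure hx, by rw [ev_zero, map_zero, zero_add]⟩
    | zero => exact ⟨0, zero_mem _, 0, zero_mem _, by rw [ev_zero, map_zero, zero_add]⟩
    | add x y _ _ hx hy =>
      obtain ⟨M, hM, N, hN, rfl⟩ := hx
      obtain ⟨M', hM', N', hN', rfl⟩ := hy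
      exact ⟨M + M', add_mem hM hM', N + N', add_mem hN hN', by rw [ev_add, map_add]; ring⟩
    | neg x _ hx =>
      obtain ⟨M, hM, N, hN, rfl⟩ := hx
      exact ⟨-M, neg_mem hM, -N, neg_mem hN, by rw [ev_neg, map_neg]; ring⟩
  obtain ⟨M, hM, N, hN, hMN⟩ := hdec _ hL
  have hN0 : N = 0 := by
    apply zero_of_pos θ hN
    have h1 : N = iota (ev S₀.x L - ev S₀.x M) := by
      rw [map_sub, hMN]
      ring
    rw [h1, theta_iota hθ]
  rw [hN0, add_zero] at hMN
  rw [ev_injective good_S₀.ai (iota_injective hMN)]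
  clear hMN hL
  induction hM using AddSubgroup.closure_induction with
  | mem x hx =>
    obtain ⟨d, hd⟩ := hx
    exact hd.eps_even
  | zero => simp [eps]
  | add x y _ _ hx hy =>
    rw [eps_add]
    exact hx.add hy
  | neg x _ hx =>
    have : eps (-x) = -eps x := by
      have := eps_smul (-1) x
      rw [neg_one_smul] at this
      rw [this]
      ring
    rw [this]
    exact hx.neg

end Pool.Agent.LibCF
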