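import Pool.Agent.LibSP.PosA
import Pool.Agent.LibSP.Hom

/-!
Seeds whose exchange matrix has no zero column.
-/

set_option autoImplicit false

namespace Pool.Agent.LibCF

open Pool.Agent.LibSP

variable {K : Type} [Field K] {n r : ℕ} {s₀ : Seed K n r}

/-- An algebraically independent extended cluster, a skew-symmetric matrix without zero
columns. -/
structure Fair (s : Seed K n r) : Prop where
  /-- algebraic independence -/
  ai : AlgebraicIndependent ℤ s.x
  /-- skew-symmetry -/
  ss : SkewSymm s.B
  /-- no zero column -/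
  nz : ∀ k, ∃ i, s.B i k ≠ 0

theorem nz_mut {B : EMat n r} (h : ∀ k, ∃ i, B i k ≠ 0) (j k : Fin n) :
    ∃ i, mutMat B j i k ≠ 0 := by
  by_contra hcon
  push Not at hcon
  obtain ⟨i, hi⟩ := h k
  by_cases hjk : k = j
  · subst hjk
    have := hcon i
    rw [mutMat_col] at this
    omega
  · have h1 : B (Sum.inl j) k = 0 := by
      have := hcon (Sum.inl j)
      rw [mutMat_row] at this
      omega
    by_cases hij : i = Sum.inl j
    · subst hij
      exact hi h1
    · have := hcon i
      rw [mutMat_off B j k i hij hjk, h1] at this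
      apply hi
      simpa using this

theorem Fair.mut {s : Seed K n r} (h : Fair s) (k : Fin n) : Fair (s.mut k) := by
  refine ⟨?_, h.ss.mut k, nz_mut h.nz k⟩
  rw [mut_x]
  apply ai_bmut h.ai
  · simp [h.ss.diag k]
  · simp [h.ss.diag k]
  · intro heq
    obtain ⟨i, hi⟩ := h.nz k
    have h1 : max (s.B i k) 0 = max (-s.B i k) 0 := congrFun heq i
    omega

theorem Fair.mut_mut {s : Seed K n r} (h : Fair s) (k : Fin n) : (s.mut k).mut k = s := by
  have hkk := h.ss.diag k
  have hx0 : s.x (Sum.inl k) ≠ 0 := ne_zero_of_ai h.ai _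
  have he0 : (s.mut k).x (Sum.inl k) ≠ 0 := ne_zero_of_ai (h.mut k).ai _
  have he : (s.mut k).x (Sum.inl k) = exch s.x s.B k := by
    change Function.update s.x (Sum.inl k) (exch s.x s.B k) (Sum.inl k) = _
    rw [Function.update_self]
  rw [he] at he0
  have hxx : ((s.mut k).mut k).x = s.x := by
    change Function.update (Function.update s.x (Sum.inl k) (exch s.x s.B k)) (Sum.inl k)
      (exch (Function.update s.x (Sum.inl k) (exch s.x s.B k)) (mutMat s.B k) k) = s.x
    rw [Function.update_idem]
    have h1 : exch (Function.update s.x (Sum.inl k) (exch s.x s.B k)) (mutMat s.B k) k =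
        s.x (Sum.inl k) := by
      rw [Pool.Agent.LibSP.exch_eq, Function.update_self]
      simp only [mutMat_col, neg_neg]
      rw [mono_update (by simp [hkk]), mono_update (by simp [hkk]), add_comm]
      have h2 : mono s.x (fun i => max (s.B i k) 0) + mono s.x (fun i => max (-s.B i k) 0) =
          exch s.x s.B k * s.x (Sum.inl k) := by
        rw [Pool.Agent.LibSP.exch_eq, div_mul_cancel₀ _ hx0]
      rw [h2, mul_div_cancel_left₀ _ he0]
    rw [h1, Function.update_eq_self]
  have hBB : ((s.mut k).mut k).B = s.B := mutMat_mutMat h.ss k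
  have hext : ∀ t t' : Seed K n r, t.x = t'.x → t.B = t'.B → t = t' := by
    rintro ⟨x, B⟩ ⟨x', B'⟩ h1 h2
    simp only at h1 h2
    rw [h1, h2]
  exact hext _ _ hxx hBB

theorem fair_of_reach (h : Fair s₀) {s : Seed K n r} (hs : Reach s₀ s) : Fair s := by
  induction hs with
  | refl => exact h
  | step k _ ih => exact ih.mut k

theorem fair_initialSeed {B : EMat n r} (hs : SkewSymm B) (hc : ∀ k, ∃ i, B i k ≠ 0) :
    Fair (initialSeed B) :=
  ⟨ai_of_injective _ (algebraMap (MvPolynomial (Idx n r) ℚ)
      (FractionRing (MvPolynomial (Idx n r) ℚ)))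
    (IsFractionRing.injective (MvPolynomial (Idx n r) ℚ)
      (FractionRing (MvPolynomial (Idx n r) ℚ))) fun _ => rfl, hs, hc⟩

/-- Homogeneity of all cluster variables. -/
theorem hg_of_reach [CharZero K] {θ : K →+* K} (h : Fair s₀) (D : Idx n r → ℤ × ℤ)
    (hD : ∀ k, ∑ i, s₀.B i k • D i = 0) (hθ : ∀ i, Hg θ (s₀.x i) (D i)) {t : Seed K n r}
    (ht : Reach s₀ t) (i : Idx n r) : ∃ d, Hg θ (t.x i) d := by
  have key : ∃ D' : Idx n r → ℤ × ℤ, (∀ k, ∑ i, t.B i k • D' i = 0) ∧
      ∀ i, Hg θ (t.x i) (D' i) := by
    induction ht with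
    | refl => exact ⟨D, hD, hθ⟩
    | @step s k hs ih =>
      obtain ⟨E, hE, hx⟩ := ih
      have hg : Fair s := fair_of_reach h hs
      refine ⟨Function.update E (Sum.inl k)
        ((∑ i, max (s.B i k) 0 • E i) - E (Sum.inl k)), fun j => ?_, fun i => ?_⟩
      · exact balanced_mut hg.ss k E hE j
      · rw [mut_x, bmut]
        rcases eq_or_ne i (Sum.inl k) with rfl | hi
        · rw [Function.update_self, Function.update_self]
          refine Hg.div (Hg.add (Hg.mono hx _) ?_) (hx _)
          have h1 : deg E (fun i => max (s.B i k) 0) = deg E (fun i => max (-s.B i k) 0) := by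
            rw [deg, deg, ← sub_eq_zero, ← Finset.sum_sub_distrib, ← hE k]
            refine Finset.sum_congr rfl fun i _ => ?_
            rw [← sub_smul]
            congr 1
            rcases le_total (s.B i k) 0 with h | h
            · rw [max_eq_right h, max_eq_left (by linarith)]; ring
            · rw [max_eq_left h, max_eq_right (by linarith)]; ring
          have h2 := Hg.mono hx (fun i => max (-s.B i k) 0)
          rw [← h1] at h2
          exact h2
        · rw [Function.update_of_ne hi, Function.update_of_ne hi]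
          exact hx i
  obtain ⟨D', -, h'⟩ := key
  exact ⟨_, h' i⟩

end Pool.Agent.LibCF
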