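import Pool.Agent.LibCF.EvenB

/-!
The contradiction.
-/

set_option autoImplicit false

namespace Pool.Agent.LibCF

open Pool.Agent.LibSP AddMonoidAlgebra

/-- The element with given coordinates. -/
noncomputable def vl {C : Set K₁} (γ : C →₀ ℕ) : K₁ := γ.sum fun c a => a • (c : K₁)

lemma vl_add {C : Set K₁} (γ δ : C →₀ ℕ) : vl (γ + δ) = vl γ + vl δ := by
  rw [vl, Finsupp.sum_add_index']
  · rfl
  · intro c; simp
  · intro c a b; rw [add_smul]

lemma vl_mem {C : Set K₁} (hC : StronglyPositiveBasis S₁ C) (γ : C →₀ ℕ) :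
    vl γ ∈ clusterAlg S₁ := by
  rw [← hC.span, vl, Finsupp.sum]
  refine Submodule.sum_mem _ fun c _ => ?_
  rw [← natCast_zsmul]
  exact Submodule.smul_mem _ _ (Submodule.subset_span c.2)

lemma vl_exists {C : Set K₁} (hC : StronglyPositiveBasis S₁ C) (γ : C →₀ ℕ) :
    ∃ L : Lp 9 0, ev S₁.x L = vl γ ∧ ∀ m, 0 ≤ L.coeff m := by
  have hc : ∀ c : C, ∃ L : Lp 9 0, ev S₁.x L = c ∧ ∀ m, 0 ≤ L.coeff m := by
    intro c
    obtain ⟨L, _, hL⟩ := univ_of_mem' ((hC.span _).1 (Submodule.subset_span c.2)) S₁ Reach.refl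
    exact ⟨L, hL, fun m => pos_of_basis' fair_S₁ hC c.2 Reach.refl hL m⟩
  choose F hF hF' using hc
  refine ⟨∑ c ∈ γ.support, (γ c : ℤ) • F c, ?_, ?_⟩
  · rw [ev_sum, vl, Finsupp.sum]
    refine Finset.sum_congr rfl fun c _ => ?_
    rw [ev_smul, hF, nsmul_eq_mul]
    push_cast
    rfl
  · intro m
    rw [coeff_sum, Finsupp.finsetSum_apply]
    refine Finset.sum_nonneg fun c _ => ?_
    rw [coeff_smul_apply, smul_eq_mul]
    exact mul_nonneg (by positivity) (hF' c m)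

lemma vl_injective {C : Set K₁} (hC : StronglyPositiveBasis S₁ C) {γ δ : C →₀ ℕ}
    (h : vl γ = vl δ) : γ = δ := by
  have hl := hC.indep
  have h1 := (linearIndependent_iff'.1 hl) (γ.support ∪ δ.support)
    (fun c => (γ c : ℤ) - δ c) (by
      have e1 : vl γ = ∑ c ∈ γ.support ∪ δ.support, (γ c : ℤ) • (c : K₁) := by
        rw [vl, Finsupp.sum]
        refine (Finset.sum_subset Finset.subset_union_left ?_).trans
          (Finset.sum_congr rfl fun c _ => (natCast_zsmul _ _).symm)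
        intro c _ hc
        rw [Finsupp.notMem_support_iff.1 hc, zero_smul]
      have e2 : vl δ = ∑ c ∈ γ.support ∪ δ.support, (δ c : ℤ) • (c : K₁) := by
        rw [vl, Finsupp.sum]
        refine (Finset.sum_subset Finset.subset_union_right ?_).trans
          (Finset.sum_congr rfl fun c _ => (natCast_zsmul _ _).symm)
        intro c _ hc
        rw [Finsupp.notMem_support_iff.1 hc, zero_smul]
      simp only [sub_smul, Finset.sum_sub_distrib]
      rw [← e1, ← e2, h, sub_self])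
  ext c
  by_cases hc : c ∈ γ.support ∪ δ.support
  · have := h1 c hc
    omega
  · rw [Finset.mem_union, not_or, Finsupp.notMem_support_iff, Finsupp.notMem_support_iff] at hc
    rw [hc.1, hc.2]

/-- The restriction of exponents. -/
def resM (m : Idx 9 0 → ℤ) : Idx 4 2 → ℤ := fun i => m (vi (em i))

lemma resM_emM (m : Idx 4 2 → ℤ) : resM (emM m) = m := by
  funext i
  exact emM_em m i

lemma coeff_emL_ne {M : Lp 4 2} {m : Idx 9 0 → ℤ} (h : (emL M).coeff m ≠ 0) :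
    ∃ m', m = emM m' := by
  classical
  rw [emL, AddMonoidAlgebra.mapDomainRingHom_apply] at h
  have h1 : m ∈ (Finsupp.mapDomain emM M.coeff).support := Finsupp.mem_support_iff.2 h
  obtain ⟨m', -, hm'⟩ := Finset.mem_image.1 (Finsupp.mapDomain_support h1)
  exact ⟨m', hm'.symm⟩

/-- A nonnegative part of an element of the six-variable ring lies in it. -/
lemma part_emL {L L' : Lp 9 0} {M : Lp 4 2} (hL : ∀ m, 0 ≤ L.coeff m)
    (hL' : ∀ m, 0 ≤ L'.coeff m) (h : L + L' = emL M) : ∃ N : Lp 4 2, emL N = L := by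
  have hs : ∀ m, L.coeff m ≠ 0 → ∃ m', m = emM m' := by
    intro m hm
    apply coeff_emL_ne (M := M)
    rw [← h, coeff_add, Finsupp.add_apply]
    have h1 := hL m
    have h2 := hL' m
    omega
  refine ⟨∑ m ∈ L.coeff.support, single (resM m) (L.coeff m), ?_⟩
  rw [map_sum]
  conv_rhs => rw [← sum_coeff_single L, Finsupp.sum]
  refine Finset.sum_congr rfl fun m hm => ?_
  obtain ⟨m', rfl⟩ := hs m (Finsupp.mem_support_iff.1 hm)
  rw [emL_single, resM_emM]

theorem no_basis' : ¬ ∃ C, StronglyPositiveBasis S₁ C := by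
  rintro ⟨C, hC⟩
  have inj := ev_injective fair_S₁.ai
  obtain ⟨g1, e1⟩ := hC.pos _ (mem_C hC (cv_iota cv_a)) _ (mem_C hC (cv_iota cv_z2))
  obtain ⟨g2, e2⟩ := hC.pos _ (mem_C hC (cv_iota cv_b)) _ (mem_C hC (cv_iota cv_z1))
  obtain ⟨g3, e3⟩ := hC.pos _ (mem_C hC (cv_iota cv_a)) _ (mem_C hC (cv_iota cv_z4))
  obtain ⟨g4, e4⟩ := hC.pos _ (mem_C hC (cv_iota cv_b)) _ (mem_C hC (cv_iota cv_z3))
  have hx := nz0
  rw [← map_mul, ← ev_mul hx, id_p1, ← ev_S₁] at e1
  rw [← map_mul, ← ev_mul hx, id_p2, ← ev_S₁] at e2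
  rw [← map_mul, ← ev_mul hx, id_p3, ← ev_S₁] at e3
  rw [← map_mul, ← ev_mul hx, id_p4, ← ev_S₁] at e4
  have hsum : g1 + g4 = g2 + g3 := by
    apply vl_injective hC
    rw [vl_add, vl_add, vl, vl, vl, vl, ← e1, ← e2, ← e3, ← e4, ← ev_add, ← ev_add, ← map_add,
      ← map_add]
    congr 2
    abel
  -- refinement
  have hb : g1 - g1 ⊓ g2 ≤ g3 := by
    intro c
    have := DFunLike.congr_fun hsum c
    simp only [Finsupp.add_apply] at this
    simp only [Finsupp.tsub_apply, Finsupp.inf_apply]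
    omega
  have d1 : g1 ⊓ g2 + (g1 - g1 ⊓ g2) = g1 := add_tsub_cancel_of_le inf_le_left
  have d2 : g1 ⊓ g2 + (g2 - g1 ⊓ g2) = g2 := add_tsub_cancel_of_le inf_le_right
  have d3 : (g1 - g1 ⊓ g2) + (g3 - (g1 - g1 ⊓ g2)) = g3 := add_tsub_cancel_of_le hb
  obtain ⟨LA, hA, hA'⟩ := vl_exists hC (g1 ⊓ g2)
  obtain ⟨LB, hB, hB'⟩ := vl_exists hC (g1 - g1 ⊓ g2)
  obtain ⟨LC, hLC, hC'⟩ := vl_exists hC (g2 - g1 ⊓ g2)
  obtain ⟨LD, hD, hD'⟩ := vl_exists hC (g3 - (g1 - g1 ⊓ g2))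
  have s1 : LA + LB = emL (lp lal + lp lbe + 2 • lp lka) := by
    apply inj
    rw [e1, ev_add, hA, hB, ← vl_add, d1]
    rfl
  have s2 : LA + LC = emL (lp lal + lp lga + 2 • lp lka) := by
    apply inj
    rw [e2, ev_add, hA, hLC, ← vl_add, d2]
    rfl
  have s3 : LB + LD = emL (lp lbe + lp lde + 2 • lp lPQ) := by
    apply inj
    rw [e3, ev_add, hB, hD, ← vl_add, d3]
    rfl
  obtain ⟨NB, rfl⟩ := part_emL hB' hD' s3
  -- coefficients
  have c1 : ∀ e, LA.coeff (emM (E e)) + NB.coeff (E e) = cf lal e + cf lbe e + 2 * cf lka e := by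
    intro e
    have := congrArg (fun L : Lp 9 0 => L.coeff (emM (E e))) s1
    simp only [coeff_add, Finsupp.add_apply, emL_coeff] at this
    rw [this]
    simp [coeff_lp, two_mul, two_nsmul]
  have c2 : ∀ e, LA.coeff (emM (E e)) + LC.coeff (emM (E e)) =
      cf lal e + cf lga e + 2 * cf lka e := by
    intro e
    have := congrArg (fun L : Lp 9 0 => L.coeff (emM (E e))) s2
    simp only [coeff_add, Finsupp.add_apply, emL_coeff] at this
    rw [this]
    simp [coeff_lp, two_mul, two_nsmul]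
  have c3 : ∀ e, NB.coeff (E e) + LD.coeff (emM (E e)) =
      cf lbe e + cf lde e + 2 * cf lPQ e := by
    intro e
    have := congrArg (fun L : Lp 9 0 => L.coeff (emM (E e))) s3
    simp only [coeff_add, Finsupp.add_apply, emL_coeff] at this
    rw [this]
    simp [coeff_lp, two_mul, two_nsmul]
  have nB : ∀ e, 0 ≤ NB.coeff (E e) := by
    intro e
    rw [← emL_coeff]
    exact hB' _
  have b1 : NB.coeff (E (0, -2, -2, 0, 2, 2)) = 0 := by
    have h1 := c3 (0, -2, -2, 0, 2, 2)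
    have h2 := nB (0, -2, -2, 0, 2, 2)
    have h3 := hD' (emM (E (0, -2, -2, 0, 2, 2)))
    have h4 : cf lbe (0, -2, -2, 0, 2, 2) + cf lde (0, -2, -2, 0, 2, 2) +
      2 * cf lPQ (0, -2, -2, 0, 2, 2) = 0 := by decide
    omega
  have b3 : NB.coeff (E (3, -1, 0, -2, 1, 0)) = 0 := by
    have h1 := c3 (3, -1, 0, -2, 1, 0)
    have h2 := nB (3, -1, 0, -2, 1, 0)
    have h3 := hD' (emM (E (3, -1, 0, -2, 1, 0)))
    have h4 : cf lbe (3, -1, 0, -2, 1, 0) + cf lde (3, -1, 0, -2, 1, 0) +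
      2 * cf lPQ (3, -1, 0, -2, 1, 0) = 0 := by decide
    omega
  have b5 : NB.coeff (E (2, 0, 2, -2, 0, 0)) = 0 := by
    have h1 := c1 (2, 0, 2, -2, 0, 0)
    have h2 := nB (2, 0, 2, -2, 0, 0)
    have h3 := hA' (emM (E (2, 0, 2, -2, 0, 0)))
    have h4 : cf lal (2, 0, 2, -2, 0, 0) + cf lbe (2, 0, 2, -2, 0, 0) +
      2 * cf lka (2, 0, 2, -2, 0, 0) = 0 := by decide
    omega
  have b4 : NB.coeff (E (0, 0, 2, -1, 0, 1)) = 0 := by
    have h1 := c1 (0, 0, 2, -1, 0, 1)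
    have h2 := nB (0, 0, 2, -1, 0, 1)
    have h3 := hA' (emM (E (0, 0, 2, -1, 0, 1)))
    have h4 : cf lal (0, 0, 2, -1, 0, 1) + cf lbe (0, 0, 2, -1, 0, 1) +
      2 * cf lka (0, 0, 2, -1, 0, 1) = 1 := by decide
    have h5 : Even (eps NB) := eps_even' hC (by rw [← ev_S₁, hB]; exact vl_mem hC _)
    rw [eps, b1, b3, b5] at h5
    obtain ⟨y, hy⟩ := h5
    omega
  -- then the coefficient at the candidate of `beta` vanishes in `LB`
  have h1 := c1 (0, 0, 2, -1, 0, 1)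
  have h2 := c2 (0, 0, 2, -1, 0, 1)
  have h3 := hC' (emM (E (0, 0, 2, -1, 0, 1)))
  have h4 : cf lal (0, 0, 2, -1, 0, 1) + cf lbe (0, 0, 2, -1, 0, 1) +
      2 * cf lka (0, 0, 2, -1, 0, 1) = 1 := by decide
  have h5 : cf lal (0, 0, 2, -1, 0, 1) + cf lga (0, 0, 2, -1, 0, 1) +
      2 * cf lka (0, 0, 2, -1, 0, 1) = 0 := by decide
  omega

end Pool.Agent.LibCF
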