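import Pool.Agent.LibCF.Point
import Pool.Agent.LibSP.FinB

/-!
Restrictions on the cluster variables of small degree.
-/

set_option autoImplicit false
set_option linter.unusedSectionVars false

namespace Pool.Agent.LibCF

open Pool.Agent.LibSP

/-- Abbreviation for the evaluation of a list, in terms of six numbers. -/
def el (l : List Term) (A P Q B f g : ℚ) : ℚ :=
  (l.map fun t => (t.1 : ℚ) * (A ^ t.2.1 * P ^ t.2.2.1 * Q ^ t.2.2.2.1 * B ^ t.2.2.2.2.1 *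
    f ^ t.2.2.2.2.2.1 * g ^ t.2.2.2.2.2.2)).sum

lemma ev_el (α : Idx 4 2 → ℚ) (l : List Term) : ev α (lp l) =
    el l (α (Sum.inl 0)) (α (Sum.inl 1)) (α (Sum.inl 2)) (α (Sum.inl 3)) (α (Sum.inr 0))
      (α (Sum.inr 1)) := ev_lp α l

section

variable {A P Q B f g : ℚ} (hA : 0 < A) (hP : 0 < P) (hQ : 0 < Q) (hB : 0 < B) (hf : 0 < f)
  (hg : 0 < g)

include hA hP hQ hB hf hg

lemma el_a : el la A P Q B f g = g / Q + P ^ 2 / B + A ^ 2 / (Q * B) := by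
  simp [el, la]
  field_simp
  ring

lemma el_b : el lb A P Q B f g = B ^ 2 / (A * P) + Q ^ 2 / A + f / P := by
  simp [el, lb]
  field_simp
  ring

lemma el_eta : el leta A P Q B f g = B ^ 2 * g / (A * P * Q) + Q * g / A + f * g / (P * Q) +
    P * f / B + A * B / (P * Q) + A ^ 2 * f / (P * Q * B) := by
  simp [el, leta]
  field_simp
  ring

lemma el_etap : el letap A P Q B f g = P * B / A + P ^ 2 * Q ^ 2 / (A * B) + A * Q / B := by
  simp [el, letap]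
  field_simp
  ring

lemma el_Y : el lY A P Q B f g = B * f / A + P * Q ^ 2 * f / (A * B) + B * Q / P +
    A * Q * f / (P * B) := by
  simp [el, lY]
  field_simp
  ring

lemma el_X : el lX A P Q B f g = P * B * g / (A * Q) + P ^ 2 * Q * g / (A * B) + A * g / B +
    A * P / Q := by
  simp [el, lX]
  field_simp
  ring

lemma el_be : el lbe A P Q B f g = B ^ 3 * g / (A ^ 2 * Q) + 2 * (P * Q * B * g / A ^ 2) +
    P ^ 2 * Q ^ 3 * g / (A ^ 2 * B) + B ^ 2 / Q + Q ^ 2 * g / B := by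
  simp [el, lbe]
  field_simp
  ring

lemma el_ga : el lga A P Q B f g = P ^ 2 * f / A + P ^ 3 * Q ^ 2 * f / (A * B ^ 2) +
    2 * (A * P * Q * f / B ^ 2) + A ^ 2 / P + A ^ 3 * f / (P * B ^ 2) := by
  simp [el, lga]
  field_simp
  ring

lemma el_de : el lde A P Q B f g = P ^ 2 * B ^ 2 / A ^ 2 + 2 * (P ^ 3 * Q ^ 2 / A ^ 2) +
    P ^ 4 * Q ^ 4 / (A ^ 2 * B ^ 2) + 2 * (P ^ 2 * Q ^ 3 / B ^ 2) + A ^ 2 * Q ^ 2 / B ^ 2 := by
  simp [el, lde]
  field_simp
  ring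

lemma el_al : el lal A P Q B f g =
    Q ^ 2 * g ^ 2 / A ^ 2 + P ^ 2 * f ^ 2 / B ^ 2 + A ^ 2 * B ^ 2 / (P ^ 2 * Q ^ 2) +
    (B ^ 4 * g ^ 2 / (A ^ 2 * P ^ 2 * Q ^ 2) + 2 * (B ^ 2 * g ^ 2 / (A ^ 2 * P)) +
    2 * (B ^ 2 * f * g ^ 2 / (A * P ^ 2 * Q ^ 2)) + 2 * (f * g ^ 2 / (A * P)) +
    f ^ 2 * g ^ 2 / (P ^ 2 * Q ^ 2) + 2 * (B ^ 3 * g / (P ^ 2 * Q ^ 2)) +
    2 * (f ^ 2 * g / (Q * B)) + 4 * (A * B * f * g / (P ^ 2 * Q ^ 2)) +
    2 * (A ^ 2 * f ^ 2 * g / (P ^ 2 * Q ^ 2 * B)) + 2 * (A ^ 2 * f ^ 2 / (Q * B ^ 2)) +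
    2 * (A ^ 3 * f / (P ^ 2 * Q ^ 2)) + A ^ 4 * f ^ 2 / (P ^ 2 * Q ^ 2 * B ^ 2)) := by
  simp [el, lal]
  field_simp
  ring

end

lemma three_lt {x y z : ℚ} (hx : 0 < x) (hy : 0 < y) (hz : 0 < z) (h1 : x < 1) (h2 : y < 1)
    (h3 : z < 1) : x * y * z < 1 := by
  have h4 : x * y < 1 := by nlinarith
  have h5 : 0 < x * y := mul_pos hx hy
  nlinarith

section

variable {A P Q B f g : ℚ} (hA : 1 ≤ A) (hP : 1 ≤ P) (hQ : 1 ≤ Q) (hB : 1 ≤ B) (hf : 1 ≤ f)
  (hg : 1 ≤ g)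

include hA hP hQ hB hf hg

lemma pos_all : 0 < A ∧ 0 < P ∧ 0 < Q ∧ 0 < B ∧ 0 < f ∧ 0 < g :=
  ⟨by linarith, by linarith, by linarith, by linarith, by linarith, by linarith⟩

lemma no_eta (h : el leta A P Q B f g ≤ 1) : False := by
  obtain ⟨a, p, q, b, f', g'⟩ := pos_all hA hP hQ hB hf hg
  rw [el_eta a p q b f' g'] at h
  have t1 : 0 < Q * g / A := by positivity
  have t2 : 0 < P * f / B := by positivity
  have t3 : 0 < A * B / (P * Q) := by positivity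
  have t4 : 0 < B ^ 2 * g / (A * P * Q) := by positivity
  have t5 : 0 < f * g / (P * Q) := by positivity
  have t6 : 0 < A ^ 2 * f / (P * Q * B) := by positivity
  have h1 := three_lt t1 t2 t3 (by linarith) (by linarith) (by linarith)
  have h2 : Q * g / A * (P * f / B) * (A * B / (P * Q)) = f * g := by field_simp
  nlinarith

lemma no_etap (h : el letap A P Q B f g ≤ 1) : False := by
  obtain ⟨a, p, q, b, f', g'⟩ := pos_all hA hP hQ hB hf hg
  rw [el_etap a p q b f' g'] at h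
  have t1 : 0 < P * B / A := by positivity
  have t2 : 0 < P ^ 2 * Q ^ 2 / (A * B) := by positivity
  have t3 : 0 < A * Q / B := by positivity
  have h2 : P * B / A * (A * Q / B) = P * Q := by field_simp
  nlinarith [mul_pos t1 t3, mul_pos p q]

lemma no_Y (h : el lY A P Q B f g ≤ 1) (hb : 1 ≤ el lb A P Q B f g) : False := by
  obtain ⟨a, p, q, b, f', g'⟩ := pos_all hA hP hQ hB hf hg
  rw [el_Y a p q b f' g'] at h
  rw [el_b a p q b f' g'] at hb
  have t1 : 0 < B * f / A := by positivity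
  have t2 : 0 < P * Q ^ 2 * f / (A * B) := by positivity
  have t3 : 0 < B * Q / P := by positivity
  have t4 : 0 < A * Q * f / (P * B) := by positivity
  have e1 : B * f / A * (B * Q / P) = B ^ 2 / (A * P) * (f * Q) := by field_simp
  have e2 : P * Q ^ 2 * f / (A * B) * (B * Q / P) = Q ^ 2 / A * (f * Q) := by field_simp
  have e3 : B * f / A * (A * Q * f / (P * B)) = f / P * (f * Q) := by field_simp
  have h1 : 1 ≤ f * Q := by nlinarith
  have s1 : 0 < B ^ 2 / (A * P) := by positivity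
  have s2 : 0 < Q ^ 2 / A := by positivity
  have s3 : 0 < f / P := by positivity
  have u1 : B ^ 2 / (A * P) ≤ B * f / A * (B * Q / P) := by rw [e1]; nlinarith
  have u2 : Q ^ 2 / A ≤ P * Q ^ 2 * f / (A * B) * (B * Q / P) := by rw [e2]; nlinarith
  have u3 : f / P ≤ B * f / A * (A * Q * f / (P * B)) := by rw [e3]; nlinarith
  generalize B * f / A = x1 at *
  generalize P * Q ^ 2 * f / (A * B) = x2 at *
  generalize B * Q / P = x3 at *
  generalize A * Q * f / (P * B) = x4 at *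
  nlinarith [mul_pos t2 t4, sq_nonneg (x1 + x2 - x3 - x4)]

lemma no_X (h : el lX A P Q B f g ≤ 1) (ha : 1 ≤ el la A P Q B f g) : False := by
  obtain ⟨a, p, q, b, f', g'⟩ := pos_all hA hP hQ hB hf hg
  rw [el_X a p q b f' g'] at h
  rw [el_a a p q b f' g'] at ha
  have t1 : 0 < P * B * g / (A * Q) := by positivity
  have t2 : 0 < P ^ 2 * Q * g / (A * B) := by positivity
  have t3 : 0 < A * g / B := by positivity
  have t4 : 0 < A * P / Q := by positivity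
  have e1 : P * B * g / (A * Q) * (A * g / B) = g / Q * (P * g) := by field_simp
  have e2 : P ^ 2 * Q * g / (A * B) * (A * P / Q) = P ^ 2 / B * (P * g) := by field_simp
  have e3 : A * g / B * (A * P / Q) = A ^ 2 / (Q * B) * (P * g) := by field_simp
  have h1 : 1 ≤ P * g := by nlinarith
  have s1 : 0 < g / Q := by positivity
  have s2 : 0 < P ^ 2 / B := by positivity
  have s3 : 0 < A ^ 2 / (Q * B) := by positivity
  have u1 : g / Q ≤ P * B * g / (A * Q) * (A * g / B) := by rw [e1]; nlinarith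
  have u2 : P ^ 2 / B ≤ P ^ 2 * Q * g / (A * B) * (A * P / Q) := by rw [e2]; nlinarith
  have u3 : A ^ 2 / (Q * B) ≤ A * g / B * (A * P / Q) := by rw [e3]; nlinarith
  generalize P * B * g / (A * Q) = x1 at *
  generalize P ^ 2 * Q * g / (A * B) = x2 at *
  generalize A * g / B = x3 at *
  generalize A * P / Q = x4 at *
  nlinarith [mul_pos t1 t2, sq_nonneg (x1 + x4 - x2 - x3)]

lemma no_be (h : el lbe A P Q B f g ≤ 1) : False := by
  obtain ⟨a, p, q, b, f', g'⟩ := pos_all hA hP hQ hB hf hg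
  rw [el_be a p q b f' g'] at h
  have t1 : 0 < B ^ 2 / Q := by positivity
  have t2 : 0 < Q ^ 2 * g / B := by positivity
  have t3 : 0 < B ^ 3 * g / (A ^ 2 * Q) := by positivity
  have t4 : 0 < P * Q * B * g / A ^ 2 := by positivity
  have t5 : 0 < P ^ 2 * Q ^ 3 * g / (A ^ 2 * B) := by positivity
  have h1 := three_lt t1 t2 t2 (by linarith) (by linarith) (by linarith)
  have h2 : B ^ 2 / Q * (Q ^ 2 * g / B) * (Q ^ 2 * g / B) = Q ^ 3 * g ^ 2 := by field_simp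
  have h3 : 1 ≤ Q ^ 3 * g ^ 2 := one_le_mul_of_one_le_of_one_le (one_le_pow₀ hQ) (one_le_pow₀ hg)
  linarith

lemma no_ga (h : el lga A P Q B f g ≤ 1) : False := by
  obtain ⟨a, p, q, b, f', g'⟩ := pos_all hA hP hQ hB hf hg
  rw [el_ga a p q b f' g'] at h
  have t1 : 0 < A ^ 2 / P := by positivity
  have t2 : 0 < P ^ 2 * f / A := by positivity
  have t3 : 0 < P ^ 3 * Q ^ 2 * f / (A * B ^ 2) := by positivity
  have t4 : 0 < A * P * Q * f / B ^ 2 := by positivity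
  have t5 : 0 < A ^ 3 * f / (P * B ^ 2) := by positivity
  have h1 := three_lt t1 t2 t2 (by linarith) (by linarith) (by linarith)
  have h2 : A ^ 2 / P * (P ^ 2 * f / A) * (P ^ 2 * f / A) = P ^ 3 * f ^ 2 := by field_simp
  have h3 : 1 ≤ P ^ 3 * f ^ 2 := one_le_mul_of_one_le_of_one_le (one_le_pow₀ hP) (one_le_pow₀ hf)
  linarith

lemma no_de (h : el lde A P Q B f g ≤ 1) : False := by
  obtain ⟨a, p, q, b, f', g'⟩ := pos_all hA hP hQ hB hf hg
  rw [el_de a p q b f' g'] at h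
  have t1 : 0 < P ^ 2 * B ^ 2 / A ^ 2 := by positivity
  have t2 : 0 < A ^ 2 * Q ^ 2 / B ^ 2 := by positivity
  have t3 : 0 < P ^ 3 * Q ^ 2 / A ^ 2 := by positivity
  have t4 : 0 < P ^ 4 * Q ^ 4 / (A ^ 2 * B ^ 2) := by positivity
  have t5 : 0 < P ^ 2 * Q ^ 3 / B ^ 2 := by positivity
  have h1 : P ^ 2 * B ^ 2 / A ^ 2 * (A ^ 2 * Q ^ 2 / B ^ 2) = P ^ 2 * Q ^ 2 := by field_simp
  have h3 : 1 ≤ P ^ 2 * Q ^ 2 := one_le_mul_of_one_le_of_one_le (one_le_pow₀ hP) (one_le_pow₀ hQ)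
  have h4 : P ^ 2 * B ^ 2 / A ^ 2 < 1 := by linarith
  have h5 : A ^ 2 * Q ^ 2 / B ^ 2 < 1 := by linarith
  nlinarith

lemma no_al (h : el lal A P Q B f g ≤ 1) : False := by
  obtain ⟨a, p, q, b, f', g'⟩ := pos_all hA hP hQ hB hf hg
  rw [el_al a p q b f' g'] at h
  have t1 : 0 < Q ^ 2 * g ^ 2 / A ^ 2 := by positivity
  have t2 : 0 < P ^ 2 * f ^ 2 / B ^ 2 := by positivity
  have t3 : 0 < A ^ 2 * B ^ 2 / (P ^ 2 * Q ^ 2) := by positivity
  have t4 : 0 < B ^ 4 * g ^ 2 / (A ^ 2 * P ^ 2 * Q ^ 2) + 2 * (B ^ 2 * g ^ 2 / (A ^ 2 * P)) +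
    2 * (B ^ 2 * f * g ^ 2 / (A * P ^ 2 * Q ^ 2)) + 2 * (f * g ^ 2 / (A * P)) +
    f ^ 2 * g ^ 2 / (P ^ 2 * Q ^ 2) + 2 * (B ^ 3 * g / (P ^ 2 * Q ^ 2)) +
    2 * (f ^ 2 * g / (Q * B)) + 4 * (A * B * f * g / (P ^ 2 * Q ^ 2)) +
    2 * (A ^ 2 * f ^ 2 * g / (P ^ 2 * Q ^ 2 * B)) + 2 * (A ^ 2 * f ^ 2 / (Q * B ^ 2)) +
    2 * (A ^ 3 * f / (P ^ 2 * Q ^ 2)) + A ^ 4 * f ^ 2 / (P ^ 2 * Q ^ 2 * B ^ 2) := by positivity
  have h1 := three_lt t1 t2 t3 (by linarith) (by linarith) (by linarith)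
  have h2 : Q ^ 2 * g ^ 2 / A ^ 2 * (P ^ 2 * f ^ 2 / B ^ 2) * (A ^ 2 * B ^ 2 / (P ^ 2 * Q ^ 2)) =
      f ^ 2 * g ^ 2 := by field_simp
  have h3 : 1 ≤ f ^ 2 * g ^ 2 := one_le_mul_of_one_le_of_one_le (one_le_pow₀ hf) (one_le_pow₀ hg)
  linarith

end

/-- Evaluations of lists with nonnegative coefficients. -/
lemma el_nonneg' {α : Idx 4 2 → ℚ} (h : ∀ i, 1 ≤ α i) (l : List Term) (hl : ∀ t ∈ l, 0 ≤ t.1) :
    0 ≤ ev α (lp l) :=
  ev_lp_nonneg (fun i => lt_of_lt_of_le one_pos (h i)) l hl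

lemma part_le {c : ℤ} {x s : ℚ} (hc : 0 ≤ c) (hc0 : c ≠ 0) (hx : 0 ≤ x)
    (h : (c : ℚ) * x + s ≤ 1) (hs : 0 ≤ s) : x ≤ 1 := by
  have h1 : (1 : ℚ) ≤ c := by
    have : 1 ≤ c := by omega
    exact_mod_cast this
  nlinarith

theorem n1' {L : Lp 4 2} (hU : InU L) {α : Idx 4 2 → ℚ} (hp : Pt L α) : ¬ HomL L (1, 1) := by
  intro hd
  have hLe := coord_11 hU hd
  have hv := hp.val
  rw [hLe, ev_add, ev_smul, ev_smul] at hv
  have c1 := hp.nn (E (0, -1, -1, 0, 1, 1))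
  have c2 := hp.nn (E (1, 0, 1, -1, 0, 0))
  generalize L.coeff (E (0, -1, -1, 0, 1, 1)) = u at *
  generalize L.coeff (E (1, 0, 1, -1, 0, 0)) = v at *
  have p1 := el_nonneg' hp.one leta (by decide)
  have p2 := el_nonneg' hp.one letap (by decide)
  have u' : (0 : ℚ) ≤ u := by exact_mod_cast c1
  have v' : (0 : ℚ) ≤ v := by exact_mod_cast c2
  have q1 := mul_nonneg u' p1
  have q2 := mul_nonneg v' p2
  by_cases hu : u = 0
  · by_cases hv0 : v = 0
    · rw [hu, hv0] at hv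
      norm_num at hv
    · have h := part_le c2 hv0 p2 (s := u * ev α (lp leta)) (by linarith) q1
      rw [ev_el] at h
      exact no_etap (hp.one _) (hp.one _) (hp.one _) (hp.one _) (hp.one _) (hp.one _) h
  · have h := part_le c1 hu p1 (s := v * ev α (lp letap)) (by linarith) q2
    rw [ev_el] at h
    exact no_eta (hp.one _) (hp.one _) (hp.one _) (hp.one _) (hp.one _) (hp.one _) h

theorem n2' {L : Lp 4 2} (hU : InU L) {α : Idx 4 2 → ℚ} (hp : Pt L α) (hd : HomL L (-1, 4)) :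
    L.coeff (E (1, -1, 1, -1, 1, 0)) = 0 := by
  by_contra hu
  have hLe := coord_14 hU hd
  have hv := hp.val
  rw [hLe, ev_add, ev_add, ev_smul, ev_smul, ev_smul] at hv
  have c1 := hp.nn (E (0, -2, -1, 0, 2, 1))
  have c2 := hp.nn (E (1, -1, 1, -1, 1, 0))
  have c3 := hp.nn (E (0, 0, 3, -1, 0, 0))
  generalize L.coeff (E (0, -2, -1, 0, 2, 1)) = u at *
  generalize L.coeff (E (1, -1, 1, -1, 1, 0)) = v at *
  generalize L.coeff (E (0, 0, 3, -1, 0, 0)) = w at *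
  have p1 := el_nonneg' hp.one lz2 (by decide)
  have p2 := el_nonneg' hp.one lY (by decide)
  have p3 := el_nonneg' hp.one lz4 (by decide)
  have u' : (0 : ℚ) ≤ u := by exact_mod_cast c1
  have w' : (0 : ℚ) ≤ w := by exact_mod_cast c3
  have h := part_le c2 hu p2 (s := u * ev α (lp lz2) + w * ev α (lp lz4)) (by linarith)
    (add_nonneg (mul_nonneg u' p1) (mul_nonneg w' p3))
  have hb := hp.vb
  rw [ev_el] at h hb
  exact no_Y (hp.one _) (hp.one _) (hp.one _) (hp.one _) (hp.one _) (hp.one _) h hb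

theorem n3' {L : Lp 4 2} (hU : InU L) {α : Idx 4 2 → ℚ} (hp : Pt L α) (hd : HomL L (4, -1)) :
    L.coeff (E (1, 0, 0, -1, 0, 1)) = 0 := by
  by_contra hu
  have hLe := coord_41 hU hd
  have hv := hp.val
  rw [hLe, ev_add, ev_add, ev_smul, ev_smul, ev_smul] at hv
  have c1 := hp.nn (E (0, -1, -2, 0, 1, 2))
  have c2 := hp.nn (E (1, 0, 0, -1, 0, 1))
  have c3 := hp.nn (E (3, 0, 0, -2, 0, 0))
  generalize L.coeff (E (0, -1, -2, 0, 1, 2)) = u at *
  generalize L.coeff (E (1, 0, 0, -1, 0, 1)) = v at *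
  generalize L.coeff (E (3, 0, 0, -2, 0, 0)) = w at *
  have p1 := el_nonneg' hp.one lz1 (by decide)
  have p2 := el_nonneg' hp.one lX (by decide)
  have p3 := el_nonneg' hp.one lz3 (by decide)
  have u' : (0 : ℚ) ≤ u := by exact_mod_cast c1
  have w' : (0 : ℚ) ≤ w := by exact_mod_cast c3
  have h := part_le c2 hu p2 (s := u * ev α (lp lz1) + w * ev α (lp lz3)) (by linarith)
    (add_nonneg (mul_nonneg u' p1) (mul_nonneg w' p3))
  have ha := hp.va
  rw [ev_el] at h ha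
  exact no_X (hp.one _) (hp.one _) (hp.one _) (hp.one _) (hp.one _) (hp.one _) h ha

theorem n4' {L : Lp 4 2} (hU : InU L) {α : Idx 4 2 → ℚ} (hp : Pt L α) (hd : HomL L (2, 2)) :
    L.coeff (E (0, -2, -2, 0, 2, 2)) = 0 ∧ L.coeff (E (3, -1, 0, -2, 1, 0)) = 0 ∧
      L.coeff (E (0, 0, 2, -1, 0, 1)) = 0 ∧ L.coeff (E (2, 0, 2, -2, 0, 0)) = 0 := by
  have hLe := coord_22 hU hd
  have hv := hp.val
  rw [hLe, ev_add, ev_add, ev_add, ev_add, ev_add, ev_smul, ev_smul, ev_smul, ev_smul, ev_smul,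
    ev_smul] at hv
  have c1 := hp.nn (E (0, -2, -2, 0, 2, 2))
  have c2 := hp.nn (E (1, -1, 0, -1, 1, 1))
  have c3 := hp.nn (E (3, -1, 0, -2, 1, 0))
  have c4 := hp.nn (E (0, 0, 2, -1, 0, 1))
  have c5 := hp.nn (E (2, 0, 2, -2, 0, 0))
  have c6 := hp.nn (E (0, 1, 1, 0, 0, 0))
  generalize L.coeff (E (0, -2, -2, 0, 2, 2)) = x1 at *
  generalize L.coeff (E (1, -1, 0, -1, 1, 1)) = x2 at *
  generalize L.coeff (E (3, -1, 0, -2, 1, 0)) = x3 at *
  generalize L.coeff (E (0, 0, 2, -1, 0, 1)) = x4 at *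
  generalize L.coeff (E (2, 0, 2, -2, 0, 0)) = x5 at *
  generalize L.coeff (E (0, 1, 1, 0, 0, 0)) = x6 at *
  have p1 := el_nonneg' hp.one lal (by decide)
  have p2 := el_nonneg' hp.one lka (by decide)
  have p3 := el_nonneg' hp.one lga (by decide)
  have p4 := el_nonneg' hp.one lbe (by decide)
  have p5 := el_nonneg' hp.one lde (by decide)
  have p6 := el_nonneg' hp.one lPQ (by decide)
  have y1 : (0 : ℚ) ≤ x1 := by exact_mod_cast c1
  have y2 : (0 : ℚ) ≤ x2 := by exact_mod_cast c2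
  have y3 : (0 : ℚ) ≤ x3 := by exact_mod_cast c3
  have y4 : (0 : ℚ) ≤ x4 := by exact_mod_cast c4
  have y5 : (0 : ℚ) ≤ x5 := by exact_mod_cast c5
  have y6 : (0 : ℚ) ≤ x6 := by exact_mod_cast c6
  have q1 := mul_nonneg y1 p1
  have q2 := mul_nonneg y2 p2
  have q3 := mul_nonneg y3 p3
  have q4 := mul_nonneg y4 p4
  have q5 := mul_nonneg y5 p5
  have q6 := mul_nonneg y6 p6
  refine ⟨?_, ?_, ?_, ?_⟩
  · by_contra hu
    have h := part_le c1 hu p1 (s := 0) (by linarith) le_rfl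
    rw [ev_el] at h
    exact no_al (hp.one _) (hp.one _) (hp.one _) (hp.one _) (hp.one _) (hp.one _) h
  · by_contra hu
    have h := part_le c3 hu p3 (s := 0) (by linarith) le_rfl
    rw [ev_el] at h
    exact no_ga (hp.one _) (hp.one _) (hp.one _) (hp.one _) (hp.one _) (hp.one _) h
  · by_contra hu
    have h := part_le c4 hu p4 (s := 0) (by linarith) le_rfl
    rw [ev_el] at h
    exact no_be (hp.one _) (hp.one _) (hp.one _) (hp.one _) (hp.one _) (hp.one _) h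
  · by_contra hu
    have h := part_le c5 hu p5 (s := 0) (by linarith) le_rfl
    rw [ev_el] at h
    exact no_de (hp.one _) (hp.one _) (hp.one _) (hp.one _) (hp.one _) (hp.one _) h

end Pool.Agent.LibCF
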