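import Pool.Agent.LibCF.Trans
import Pool.Agent.LibSP.Pos

/-!
Positivity, and the point at which all variables of a seed take the value one.
-/

set_option autoImplicit false

namespace Pool.Agent.LibCF

open Pool.Agent.LibSP AddMonoidAlgebra

variable {K : Type} [Field K] {n r : ℕ} {s₀ : Seed K n r}

/-- The elements of a strongly positive basis have nonnegative Laurent expansions. -/
theorem pos_of_basis' (h : Fair s₀) {C : Set K} (hC : StronglyPositiveBasis s₀ C) {c : K}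
    (hc : c ∈ C) {t : Seed K n r} (ht : Reach s₀ t) {L : Lp n r} (hL : ev t.x L = c)
    (m : Idx n r → ℤ) : 0 ≤ L.coeff m := by
  classical
  have hai := (fair_of_reach h ht).ai
  have hx0 : ∀ i, t.x i ≠ 0 := ne_zero_of_ai hai
  obtain ⟨N, hN⟩ := exists_poly L
  obtain ⟨p, hp⟩ := hN N le_rfl
  -- cluster monomials
  have hmem : ∀ e : Idx n r → ℕ, ∏ i, t.x i ^ e i ∈ C := fun e =>
    hC.monomials _ ⟨t, ht, e, rfl⟩
  obtain ⟨γ, hγ⟩ := hC.pos c hc _ (hmem fun _ => N)
  have h1 : c * ∏ i, t.x i ^ N = MvPolynomial.aeval t.x p := by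
    rw [← ev_ofPoly, ← hp, ev_mul hx0, hL, ev_single]
    simp [mono]
  let δ : C →₀ ℤ := γ.mapRange (Nat.cast : ℕ → ℤ) Nat.cast_zero
  let ε : C →₀ ℤ := ∑ e ∈ p.support, Finsupp.single (⟨∏ i, t.x i ^ e i, hmem e⟩ : C) (p.coeff e)
  have hδ : Finsupp.linearCombination ℤ (Subtype.val : C → K) δ = c * ∏ i, t.x i ^ N := by
    rw [hγ, Finsupp.linearCombination_apply, Finsupp.sum_mapRange_index (by simp)]
    apply Finset.sum_congr rfl
    intro b _
    simp
  have hε : Finsupp.linearCombination ℤ (Subtype.val : C → K) ε = c * ∏ i, t.x i ^ N := by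
    rw [h1, map_sum, MvPolynomial.aeval_def, MvPolynomial.eval₂_eq']
    apply Finset.sum_congr rfl
    intro e _
    rw [Finsupp.linearCombination_single]
    simp
  have hde : ε = δ := hC.indep (hε.trans hδ.symm)
  have hp0 : ∀ e, 0 ≤ p.coeff e := by
    intro e
    by_cases he : e ∈ p.support
    · have h2 : ε ⟨∏ i, t.x i ^ e i, hmem e⟩ = p.coeff e := by
        show (∑ e ∈ p.support, Finsupp.single (⟨∏ i, t.x i ^ e i, hmem e⟩ : C) (p.coeff e)) _ = _
        rw [Finsupp.finsetSum_apply, Finset.sum_eq_single e]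
        · simp
        · intro e' _ hne
          rw [Finsupp.single_apply, if_neg]
          intro heq
          exact hne (prod_inj hai e' e (congrArg Subtype.val heq))
        · intro hne
          exact absurd he hne
      rw [← h2, hde]
      show 0 ≤ ((γ _ : ℕ) : ℤ)
      exact Int.natCast_nonneg _
    · rw [MvPolynomial.notMem_support_iff.1 he]
  rw [← coeff_shift L (fun _ => (N : ℤ)) m, hp]
  exact ofPoly_coeff_nonneg p hp0 _

lemma ev_one_ge {L : Lp n r} (hL : ∀ m, 0 ≤ L.coeff m) (hne : L ≠ 0) :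
    1 ≤ ev (fun _ => (1 : ℚ)) L := by
  obtain ⟨m, hm, -⟩ := exists_min (fun _ => (1 : ℤ)) hne
  have h1 : mono (fun _ : Idx n r => (1 : ℚ)) m = 1 := by simp [mono]
  have h2 : (1 : ℚ) ≤ L.coeff m := by
    have : 1 ≤ L.coeff m := by
      have := hL m
      omega
    exact_mod_cast this
  have h3 := term_le_ev (τ := fun _ : Idx n r => (1 : ℚ)) (fun _ => one_pos) hL m
  rw [h1, mul_one] at h3
  exact h2.trans h3

/-- The point at which all variables of a reachable seed take the value `1`. -/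
theorem exists_point' {C : Set K₁} (hC : StronglyPositiveBasis S₁ C)
    {t : Seed K₁ 9 0} (ht : Reach S₁ t) (k : Fin 9) :
    ∃ α : Idx 9 0 → ℚ, (∀ i, 1 ≤ α i) ∧
      (∀ L₀ : Lp 9 0, ev S₁.x L₀ = t.x (Sum.inl k) → ev α L₀ = 1) ∧
      ∀ c ∈ C, c ≠ 0 → ∀ L₀ : Lp 9 0, ev S₁.x L₀ = c → 1 ≤ ev α L₀ := by
  classical
  have hgt : Fair t := fair_of_reach fair_S₁ ht
  have h0t : ∀ i, t.x i ≠ 0 := ne_zero_of_ai hgt.ai
  have h00 : ∀ i, S₁.x i ≠ 0 := ne_zero_of_ai fair_S₁.ai
  have hvar : ∀ i, ev t.x (single (Pi.single i 1) 1 : Lp 9 0) = t.x i := by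
    intro i
    rw [ev_single, mono_single]
    simp
  have hlau : ∀ i, ∃ L : Lp 9 0, ev t.x L = S₁.x i := by
    intro i
    obtain ⟨L, _, hL⟩ := laurent_quiver fair_S₁ (Reach.refl (s₀ := S₁)) ht i
    exact ⟨L, hL⟩
  choose A hA using hlau
  have hmemC : ∀ i, S₁.x i ∈ C := by
    intro i
    refine hC.monomials _ ⟨S₁, Reach.refl, Pi.single i 1, ?_⟩
    rw [Finset.prod_eq_single i]
    · simp
    · intro j _ hj
      simp [hj]
    · simp
  have hα : ∀ i, 1 ≤ ev (fun _ => (1 : ℚ)) (A i) := by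
    intro i
    refine ev_one_ge (fun m => pos_of_basis' fair_S₁ hC (hmemC i) ht (hA i) m) ?_
    intro hcon
    have := hA i
    rw [hcon, ev_zero] at this
    exact h00 i this.symm
  have hα0 : ∀ i, ev (fun _ => (1 : ℚ)) (A i) ≠ 0 := fun i => by
    have := hα i
    positivity
  refine ⟨fun i => ev (fun _ => (1 : ℚ)) (A i), hα, ?_, ?_⟩
  · intro L₀ hL₀
    have h1 := transfer hgt.ai A hA h00 (fun _ => (1 : ℚ)) (fun _ => one_ne_zero) hα0 L₀
      (single (Pi.single (Sum.inl k) 1) 1) (by rw [hL₀, hvar])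
    rw [h1, ev_single, mono_single]
    simp
  · intro c hc hc0 L₀ hL₀
    have hcA : c ∈ clusterAlg S₁ := (hC.span c).1 (Submodule.subset_span hc)
    obtain ⟨L, -, hL⟩ := univ_of_mem' hcA t ht
    have hpos : ∀ m, 0 ≤ L.coeff m := fun m => pos_of_basis' fair_S₁ hC hc ht hL m
    have h1 := transfer hgt.ai A hA h00 (fun _ => (1 : ℚ)) (fun _ => one_ne_zero) hα0 L₀ L
      (by rw [hL₀, hL])
    rw [h1]
    refine ev_one_ge hpos ?_
    rintro rfl
    rw [ev_zero] at hL
    exact hc0 hL.symm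

/-- The extension of exponents. -/
def emM : (Idx 4 2 → ℤ) →+ (Idx 9 0 → ℤ) where
  toFun m := Sum.elim ![m (Sum.inl 0), m (Sum.inl 1), m (Sum.inl 2), m (Sum.inl 3), m (Sum.inr 0),
    m (Sum.inr 1), 0, 0, 0] Fin.elim0
  map_zero' := by
    funext i
    rcases i with i | i
    · fin_cases i <;> rfl
    · exact i.elim0
  map_add' a b := by
    funext i
    rcases i with i | i
    · fin_cases i <;> rfl
    · exact i.elim0

lemma emM_em (m : Idx 4 2 → ℤ) (i : Idx 4 2) : emM m (vi (em i)) = m i := by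
  rcases i with i | i <;> fin_cases i <;> rfl

lemma emM_h (m : Idx 4 2 → ℤ) : emM m (vi 6) = 0 ∧ emM m (vi 7) = 0 ∧ emM m (vi 8) = 0 :=
  ⟨rfl, rfl, rfl⟩

lemma emM_injective : Function.Injective emM := by
  intro a b h
  funext i
  rw [← emM_em a, h, emM_em]

/-- The extension of Laurent polynomials. -/
noncomputable def emL : Lp 4 2 →+* Lp 9 0 :=
  AddMonoidAlgebra.mapDomainRingHom ℤ emM

lemma emL_single (m : Idx 4 2 → ℤ) (c : ℤ) : emL (single m c) = single (emM m) c := by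
  rw [emL, AddMonoidAlgebra.mapDomainRingHom_apply, mapDomain_single]

lemma emL_coeff (L : Lp 4 2) (m : Idx 4 2 → ℤ) : (emL L).coeff (emM m) = L.coeff m := by
  rw [emL, AddMonoidAlgebra.mapDomainRingHom_apply]
  exact Finsupp.mapDomain_apply emM_injective _ _

lemma mono_emM {F : Type} [Field F] (y : Idx 9 0 → F) (m : Idx 4 2 → ℤ) :
    mono y (emM m) = mono (fun i => y (vi (em i))) m := by
  obtain ⟨z6, z7, z8⟩ := emM_h m
  unfold mono
  rw [prod9, z6, z7, z8]
  simp only [emM_em, zpow_zero, mul_one]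

lemma ev_emL {F : Type} [Field F] (y : Idx 9 0 → F) (L : Lp 4 2) :
    ev y (emL L) = ev (fun i => y (vi (em i))) L := by
  induction L using AddMonoidAlgebra.induction_linear with
  | zero => rw [map_zero, ev_zero, ev_zero]
  | add f g hf hg => rw [map_add, ev_add, ev_add, hf, hg]
  | single m c => rw [emL_single, ev_single, ev_single, mono_emM]

lemma iota_ev (x : Idx 4 2 → K₀) (L : Lp 4 2) : iota (ev x L) = ev (fun i => iota (x i)) L := by
  induction L using AddMonoidAlgebra.induction_linear with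
  | zero => rw [ev_zero, ev_zero, map_zero]
  | add f g hf hg => rw [ev_add, ev_add, map_add, hf, hg]
  | single m c =>
    rw [ev_single, ev_single, map_mul, map_intCast, mono, mono, map_prod]
    simp only [map_zpow₀]

lemma ev_S₁ (L : Lp 4 2) : ev S₁.x (emL L) = iota (ev S₀.x L) := by
  rw [ev_emL, iota_ev]
  simp only [iota_x]

/-- The data of the special point. -/
structure Pt (L : Lp 4 2) (α : Idx 4 2 → ℚ) : Prop where
  one : ∀ i, 1 ≤ α i
  val : ev α L = 1
  va : 1 ≤ ev α (lp la)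
  vb : 1 ≤ ev α (lp lb)
  nn : ∀ m, 0 ≤ L.coeff m

theorem mem_C {C : Set K₁} (hC : StronglyPositiveBasis S₁ C) {y : K₁} (hy : IsCV y) : y ∈ C := by
  obtain ⟨s, hs, k, rfl⟩ := hy
  refine hC.monomials _ ⟨s, hs, Pi.single (Sum.inl k) 1, ?_⟩
  rw [Finset.prod_eq_single (Sum.inl k)]
  · simp
  · intro j _ hj
    simp [hj]
  · simp

lemma IsCV.ne_zero {y : K₁} (hy : IsCV y) : y ≠ 0 := by
  obtain ⟨s, hs, k, rfl⟩ := hy
  exact ne_zero_of_ai (fair_of_reach fair_S₁ hs).ai _

theorem exists_pt {C : Set K₁} (hC : StronglyPositiveBasis S₁ C) {L : Lp 4 2}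
    (hL : IsCV (iota (ev S₀.x L))) : ∃ α, Pt L α := by
  obtain ⟨t, ht, k, hk⟩ := id hL
  obtain ⟨α, h1, h2, h3⟩ := exists_point' hC ht k
  refine ⟨fun i => α (vi (em i)), fun i => h1 _, ?_, ?_, ?_, ?_⟩
  · rw [← ev_emL]
    exact h2 _ (by rw [ev_S₁, hk])
  · rw [← ev_emL]
    exact h3 _ (mem_C hC (cv_iota cv_a)) (cv_iota cv_a).ne_zero _ (ev_S₁ _)
  · rw [← ev_emL]
    exact h3 _ (mem_C hC (cv_iota cv_b)) (cv_iota cv_b).ne_zero _ (ev_S₁ _)
  · intro m
    rw [← emL_coeff]
    exact pos_of_basis' fair_S₁ hC (mem_C hC hL) Reach.refl (ev_S₁ L) _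

end Pool.Agent.LibCF
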