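import Pool.Agent.LibCF.Fair

/-!
The Laurent phenomenon without coefficient variables and without any rank condition, by
specialization of principal coefficients.
-/

set_option autoImplicit false

namespace Pool.Agent.LibCF

open Pool.Agent.LibSP MvPolynomial

variable {n : ℕ}

/-- The field of the seeds with principal coefficients. -/
abbrev KT (n : ℕ) := FractionRing (MvPolynomial (Idx n n) ℚ)

/-- The field of the coefficient-free seeds. -/
abbrev KS (n : ℕ) := FractionRing (MvPolynomial (Idx n 0) ℚ)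

/-- The image of the variables: the coefficient variables go to `1`. -/
noncomputable def vx (n : ℕ) : Idx n n → KS n :=
  Sum.elim (fun i => algebraMap (MvPolynomial (Idx n 0) ℚ) (KS n) (X (Sum.inl i))) (fun _ => 1)

/-- Specialization of the coefficient variables to `1`. -/
noncomputable def phi (n : ℕ) : MvPolynomial (Idx n n) ℚ →+* KS n :=
  eval₂Hom (algebraMap ℚ (KS n)) (vx n)

/-- `v` is the specialization of `u`. -/
def Spec (u : KT n) (v : KS n) : Prop :=
  ∃ a b : MvPolynomial (Idx n n) ℚ, phi n b ≠ 0 ∧ u * algebraMap _ (KT n) b = algebraMap _ (KT n) a ∧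
    v * phi n b = phi n a

lemma amap_inj : Function.Injective (algebraMap (MvPolynomial (Idx n n) ℚ) (KT n)) :=
  IsFractionRing.injective (MvPolynomial (Idx n n) ℚ) (KT n)

theorem Spec.unique {u : KT n} {v v' : KS n} (h : Spec u v) (h' : Spec u v') : v = v' := by
  obtain ⟨a, b, hb, h1, h2⟩ := h
  obtain ⟨a', b', hb', h1', h2'⟩ := h'
  have h3 : a * b' = a' * b := by
    apply amap_inj
    rw [map_mul, map_mul, ← h1, ← h1']
    ring
  have h4 : phi n a * phi n b' = phi n a' * phi n b := by rw [← map_mul, h3, map_mul]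
  rw [← h2, ← h2'] at h4
  have h5 : (v - v') * (phi n b * phi n b') = 0 := by linear_combination h4
  rcases mul_eq_zero.1 h5 with h6 | h6
  · exact sub_eq_zero.1 h6
  · exact absurd h6 (mul_ne_zero hb hb')

theorem Spec.add {u u' : KT n} {v v' : KS n} (h : Spec u v) (h' : Spec u' v') :
    Spec (u + u') (v + v') := by
  obtain ⟨a, b, hb, h1, h2⟩ := h
  obtain ⟨a', b', hb', h1', h2'⟩ := h'
  refine ⟨a * b' + a' * b, b * b', ?_, ?_, ?_⟩
  · rw [map_mul]; exact mul_ne_zero hb hb'
  · simp only [map_mul, map_add, ← h1, ← h1']; ring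
  · simp only [map_mul, map_add, ← h2, ← h2']; ring

theorem Spec.mul {u u' : KT n} {v v' : KS n} (h : Spec u v) (h' : Spec u' v') :
    Spec (u * u') (v * v') := by
  obtain ⟨a, b, hb, h1, h2⟩ := h
  obtain ⟨a', b', hb', h1', h2'⟩ := h'
  refine ⟨a * a', b * b', ?_, ?_, ?_⟩
  · rw [map_mul]; exact mul_ne_zero hb hb'
  · simp only [map_mul, ← h1, ← h1']; ring
  · simp only [map_mul, ← h2, ← h2']; ring

theorem Spec.int (c : ℤ) : Spec (c : KT n) (c : KS n) :=
  ⟨c, 1, by simp, by simp, by simp⟩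

theorem Spec.one : Spec (1 : KT n) (1 : KS n) := ⟨1, 1, by simp, by simp, by simp⟩

theorem Spec.zero : Spec (0 : KT n) (0 : KS n) := ⟨0, 1, by simp, by simp, by simp⟩

theorem Spec.inv {u : KT n} {v : KS n} (h : Spec u v) (hv : v ≠ 0) : Spec u⁻¹ v⁻¹ := by
  obtain ⟨a, b, hb, h1, h2⟩ := h
  have ha : phi n a ≠ 0 := by rw [← h2]; exact mul_ne_zero hv hb
  have ha' : algebraMap _ (KT n) a ≠ 0 := by
    intro h0
    apply ha
    have : a = 0 := by
      apply amap_inj
      rw [h0, map_zero]
    rw [this, map_zero]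
  have hu : u ≠ 0 := by
    intro h0
    rw [h0, zero_mul] at h1
    exact ha' h1.symm
  refine ⟨b, a, ha, ?_, ?_⟩
  · rw [← h1]; field_simp
  · rw [← h2]; field_simp

theorem Spec.div {u u' : KT n} {v v' : KS n} (h : Spec u v) (h' : Spec u' v') (hv : v' ≠ 0) :
    Spec (u / u') (v / v') := by
  rw [div_eq_mul_inv, div_eq_mul_inv]
  exact h.mul (h'.inv hv)

theorem Spec.pow {u : KT n} {v : KS n} (h : Spec u v) (k : ℕ) : Spec (u ^ k) (v ^ k) := by
  induction k with
  | zero => simpa using Spec.one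
  | succ k ih => rw [pow_succ, pow_succ]; exact ih.mul h

theorem Spec.zpow {u : KT n} {v : KS n} (h : Spec u v) (hv : v ≠ 0) (k : ℤ) :
    Spec (u ^ k) (v ^ k) := by
  obtain ⟨m, rfl | rfl⟩ := k.eq_nat_or_neg
  · rw [zpow_natCast, zpow_natCast]; exact h.pow m
  · rw [zpow_neg, zpow_neg, zpow_natCast, zpow_natCast]
    exact (h.pow m).inv (pow_ne_zero _ hv)

theorem Spec.prod {ι : Type} (s : Finset ι) (u : ι → KT n) (v : ι → KS n)
    (h : ∀ i ∈ s, Spec (u i) (v i)) : Spec (∏ i ∈ s, u i) (∏ i ∈ s, v i) := by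
  classical
  induction s using Finset.induction_on with
  | empty => simpa using Spec.one
  | insert i s hi ih =>
    rw [Finset.prod_insert hi, Finset.prod_insert hi]
    exact (h i (Finset.mem_insert_self i s)).mul
      (ih fun j hj => h j (Finset.mem_insert_of_mem hj))

theorem Spec.sum {ι : Type} (s : Finset ι) (u : ι → KT n) (v : ι → KS n)
    (h : ∀ i ∈ s, Spec (u i) (v i)) : Spec (∑ i ∈ s, u i) (∑ i ∈ s, v i) := by
  classical
  induction s using Finset.induction_on with
  | empty => simpa using Spec.zero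
  | insert i s hi ih =>
    rw [Finset.sum_insert hi, Finset.sum_insert hi]
    exact (h i (Finset.mem_insert_self i s)).add
      (ih fun j hj => h j (Finset.mem_insert_of_mem hj))

/-- Principal coefficients. -/
def prB (B : EMat n 0) : EMat n n :=
  Sum.elim (fun i => B (Sum.inl i)) (fun i j => if i = j then 1 else 0)

lemma prB_skew {B : EMat n 0} (hs : SkewSymm B) : SkewSymm (prB B) := fun i j => hs i j

lemma prB_indep (B : EMat n 0) : ColIndep (prB B) := by
  intro c hc
  funext j
  have := hc (Sum.inr j)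
  simpa [prB] using this

/-- A seed with coefficients and its specialization. -/
structure Pair (s : Seed (KT n) n n) (t : Seed (KS n) n 0) : Prop where
  /-- the cluster variables -/
  hx : ∀ i, Spec (s.x (Sum.inl i)) (t.x (Sum.inl i))
  /-- the coefficient variables -/
  hy : ∀ j, Spec (s.x (Sum.inr j)) 1
  /-- the matrices -/
  hB : ∀ i j, s.B (Sum.inl i) j = t.B (Sum.inl i) j

lemma pair_init (B : EMat n 0) : Pair (initialSeed (prB B)) (initialSeed B) := by
  refine ⟨fun i => ?_, fun j => ?_, fun i j => rfl⟩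
  · refine ⟨X (Sum.inl i), 1, by simp, by simp [initialSeed], ?_⟩
    simp [initialSeed, phi, vx]
  · refine ⟨X (Sum.inr j), 1, by simp, by simp [initialSeed], ?_⟩
    simp [phi, vx]

lemma Pair.prod {s : Seed (KT n) n n} {t : Seed (KS n) n 0} (h : Pair s t) (e : Idx n n → ℕ)
    (e' : Idx n 0 → ℕ) (he : ∀ i, e (Sum.inl i) = e' (Sum.inl i)) :
    Spec (∏ i, s.x i ^ e i) (∏ i, t.x i ^ e' i) := by
  rw [Fintype.prod_sum_type, Fintype.prod_sum_type]
  have h1 : Spec (∏ i, s.x (Sum.inr i) ^ e (Sum.inr i)) (1 : KS n) := by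
    have := Spec.prod Finset.univ (fun i => s.x (Sum.inr i) ^ e (Sum.inr i))
      (fun _ => (1 : KS n)) (fun i _ => by simpa using (h.hy i).pow (e (Sum.inr i)))
    simpa using this
  have h2 : Spec (∏ i, s.x (Sum.inl i) ^ e (Sum.inl i)) (∏ i, t.x (Sum.inl i) ^ e' (Sum.inl i)) :=
    Spec.prod _ _ _ fun i _ => by rw [he i]; exact (h.hx i).pow _
  have h3 : (∏ i, t.x (Sum.inr i) ^ e' (Sum.inr i)) = (1 : KS n) := by simp
  rw [h3]
  exact h2.mul h1

theorem Pair.mut {s : Seed (KT n) n n} {t : Seed (KS n) n 0} (h : Pair s t) (ht : Fair t)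
    (k : Fin n) : Pair (s.mut k) (t.mut k) := by
  have hnew : Spec (exch s.x s.B k) (exch t.x t.B k) := by
    unfold exch
    refine Spec.div (Spec.add (h.prod _ _ fun i => ?_) (h.prod _ _ fun i => ?_)) (h.hx k)
      (ne_zero_of_ai ht.ai _)
    · rw [h.hB]
    · rw [h.hB]
  refine ⟨fun i => ?_, fun j => ?_, fun i j => ?_⟩
  · by_cases hi : i = k
    · subst hi
      rw [mut_x_self, mut_x_self]
      exact hnew
    · rw [mut_x_of_ne _ _ (by simpa using hi), mut_x_of_ne _ _ (by simpa using hi)]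
      exact h.hx i
  · rw [mut_x_of_ne _ _ (by simp)]
    exact h.hy j
  · change mutMat s.B k (Sum.inl i) j = mutMat t.B k (Sum.inl i) j
    unfold mutMat
    simp only [h.hB, Sum.inl.injEq]

theorem exists_pair {B : EMat n 0} (hf : Fair (initialSeed B)) {t : Seed (KS n) n 0}
    (ht : Reach (initialSeed B) t) : ∃ s, Reach (initialSeed (prB B)) s ∧ Pair s t := by
  induction ht with
  | refl => exact ⟨_, Reach.refl, pair_init B⟩
  | @step t k ht' ih =>
    obtain ⟨s, hs, hp⟩ := ih
    exact ⟨s.mut k, Reach.step k hs, hp.mut (fair_of_reach hf ht') k⟩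

/-- Forget the exponents of the coefficient variables. -/
def forget (m : Idx n n → ℤ) : Idx n 0 → ℤ := Sum.elim (fun i => m (Sum.inl i)) Fin.elim0

lemma Pair.mono {s : Seed (KT n) n n} {t : Seed (KS n) n 0} (h : Pair s t) (ht : Fair t)
    (m : Idx n n → ℤ) : Spec (mono s.x m) (mono t.x (forget m)) := by
  unfold Pool.Agent.LibSP.mono
  rw [Fintype.prod_sum_type, Fintype.prod_sum_type]
  have h1 : Spec (∏ i, s.x (Sum.inr i) ^ m (Sum.inr i)) (1 : KS n) := by
    have := Spec.prod Finset.univ (fun i => s.x (Sum.inr i) ^ m (Sum.inr i))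
      (fun _ => (1 : KS n)) (fun i _ => by
        simpa using (h.hy i).zpow one_ne_zero (m (Sum.inr i)))
    simpa using this
  have h2 : Spec (∏ i, s.x (Sum.inl i) ^ m (Sum.inl i))
      (∏ i, t.x (Sum.inl i) ^ forget m (Sum.inl i)) :=
    Spec.prod _ _ _ fun i _ => (h.hx i).zpow (ne_zero_of_ai ht.ai _) _
  have h3 : (∏ i, t.x (Sum.inr i) ^ forget m (Sum.inr i)) = (1 : KS n) := by simp
  rw [h3]
  exact h2.mul h1

theorem Pair.ev {s : Seed (KT n) n n} {t : Seed (KS n) n 0} (h : Pair s t) (ht : Fair t)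
    (L : Lp n n) : ∃ L' : Lp n 0, Spec (ev s.x L) (ev t.x L') := by
  refine ⟨∑ m ∈ L.coeff.support, AddMonoidAlgebra.single (forget m) (L.coeff m), ?_⟩
  rw [ev_sum]
  unfold Pool.Agent.LibSP.ev Finsupp.sum
  refine Spec.sum _ _ _ fun m _ => ?_
  have := (Spec.int (n := n) (L.coeff m)).mul (h.mono ht m)
  have h2 := ev_single t.x (forget m) (L.coeff m)
  unfold Pool.Agent.LibSP.ev Finsupp.sum at h2
  rw [h2]
  exact this

/-- The Laurent phenomenon for coefficient-free seeds. -/
theorem laurent_quiver {B : EMat n 0} (hf : Fair (initialSeed B)) {s t : Seed (KS n) n 0}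
    (hs : Reach (initialSeed B) s) (ht : Reach (initialSeed B) t) (i : Idx n 0) :
    Lau t.x (s.x i) := by
  rcases i with i | j
  · obtain ⟨s', hs', hp⟩ := exists_pair hf hs
    obtain ⟨t', ht', hq⟩ := exists_pair hf ht
    obtain ⟨L, -, hL⟩ := laurent (good_initialSeed (prB_skew hf.ss) (prB_indep B)) hs'
      (Sum.inl i) t' ht'
    obtain ⟨L', hL'⟩ := hq.ev (fair_of_reach hf ht) L
    rw [hL] at hL'
    exact ⟨L', fun _ _ j => j.elim0, (hL'.unique (hp.hx i))⟩
  · exact j.elim0

end Pool.Agent.LibCF
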