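import Pool.Agent.LibCF.Defs
import Pool.Agent.LibCF.Spec
import Pool.Agent.LibCF.Block
import Pool.Agent.LibSP.LemKB

/-!
The example: the six-variable algebra with two coefficient variables embeds.
-/

set_option autoImplicit false

namespace Pool.Agent.LibCF

open Pool.Agent.LibSP MvPolynomial

/-- The ambient field. -/
abbrev K₁ := FractionRing (MvPolynomial (Idx 9 0) ℚ)

/-- The initial seed. -/
noncomputable def S₁ : Seed K₁ 9 0 := initialSeed quiB

lemma quiB_skew : SkewSymm quiB := by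
  intro i j
  fin_cases i <;> fin_cases j <;> rfl

lemma quiB_nz (k : Fin 9) : ∃ i, quiB i k ≠ 0 := by
  fin_cases k
  · exact ⟨vi 1, by decide⟩
  · exact ⟨vi 0, by decide⟩
  · exact ⟨vi 0, by decide⟩
  · exact ⟨vi 0, by decide⟩
  · exact ⟨vi 1, by decide⟩
  · exact ⟨vi 2, by decide⟩
  · exact ⟨vi 4, by decide⟩
  · exact ⟨vi 5, by decide⟩
  · exact ⟨vi 4, by decide⟩

theorem fair_S₁ : Fair S₁ := fair_initialSeed quiB_skew quiB_nz

/-- The embedding of the old indices. -/
def em : Idx 4 2 → Fin 9 := Sum.elim ![0, 1, 2, 3] ![4, 5]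

lemma em_injective : Function.Injective em := by
  intro i j h
  rcases i with i | i <;> rcases j with j | j <;> fin_cases i <;> fin_cases j <;>
    first | rfl | (simp [em] at h)

/-- The embedding of the old field. -/
noncomputable def iota : K₀ →+* K₁ :=
  IsFractionRing.lift (A := MvPolynomial (Idx 4 2) ℚ) (K := K₀)
    (g := (algebraMap (MvPolynomial (Idx 9 0) ℚ) K₁).comp
      (rename (fun i => vi (em i)) : MvPolynomial (Idx 4 2) ℚ →ₐ[ℚ] MvPolynomial (Idx 9 0) ℚ).toRingHom)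
    (by
      intro p q h
      have h1 := IsFractionRing.injective (MvPolynomial (Idx 9 0) ℚ) K₁ h
      exact rename_injective _ (fun i j hij => em_injective (by simpa [vi] using hij)) h1)

lemma iota_x (i : Idx 4 2) : iota (S₀.x i) = S₁.x (vi (em i)) := by
  refine (IsFractionRing.lift_algebraMap _ (X i)).trans ?_
  simp [S₁, initialSeed]

lemma iota_injective : Function.Injective iota := iota.injective

/-- A product over the nine variables. -/
lemma prod9 {M : Type} [CommMonoid M] (F : Idx 9 0 → M) :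
    ∏ i, F i = (∏ i : Idx 4 2, F (vi (em i))) * (F (vi 6) * F (vi 7) * F (vi 8)) := by
  rw [Fintype.prod_sum_type, Fintype.prod_sum_type]
  simp only [Finset.univ_eq_empty, Finset.prod_empty, mul_one, Fin.prod_univ_succ]
  simp only [em, Sum.elim_inl, Sum.elim_inr, vi, Fin.prod_univ_zero, mul_one, mul_assoc]
  rfl

/-- Compatible seeds. -/
structure Emb (s : Seed K₀ 4 2) (t : Seed K₁ 9 0) : Prop where
  /-- the variables -/
  hx : ∀ i, iota (s.x i) = t.x (vi (em i))
  /-- the matrices -/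
  hB : ∀ i (k : Fin 4), t.B (vi (em i)) (em (Sum.inl k)) = s.B i k
  /-- the columns of the block -/
  c6 : ∀ i, t.B (vi i) 6 = ![0, 0, 0, 0, -2, 0, 0, -6, 6] i
  /-- the columns of the block -/
  c7 : ∀ i, t.B (vi i) 7 = ![0, 0, 0, 0, 0, 2, 6, 0, -6] i
  /-- the columns of the block -/
  c8 : ∀ i, t.B (vi i) 8 = ![0, 0, 0, 0, 2, -2, -6, 6, 0] i
  /-- the block variables -/
  hh : ∀ j : Fin 9, 6 ≤ j → t.x (vi j) = S₁.x (vi j)

lemma emb_init : Emb S₀ S₁ := by
  refine ⟨iota_x, ?_, ?_, ?_, ?_, fun _ _ => rfl⟩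
  · intro i k
    rcases i with i | i <;> fin_cases i <;> fin_cases k <;> rfl
  · intro i
    fin_cases i <;> rfl
  · intro i
    fin_cases i <;> rfl
  · intro i
    fin_cases i <;> rfl

lemma Emb.row {s : Seed K₀ 4 2} {t : Seed K₁ 9 0} (h : Emb s t) (ht : SkewSymm t.B) (k : Fin 4) :
    t.B (vi 6) (em (Sum.inl k)) = 0 ∧ t.B (vi 7) (em (Sum.inl k)) = 0 ∧
      t.B (vi 8) (em (Sum.inl k)) = 0 := by
  refine ⟨?_, ?_, ?_⟩
  · rw [ht, h.c6]
    fin_cases k <;> rfl
  · rw [ht, h.c7]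
    fin_cases k <;> rfl
  · rw [ht, h.c8]
    fin_cases k <;> rfl

lemma Emb.exch {s : Seed K₀ 4 2} {t : Seed K₁ 9 0} (h : Emb s t) (ht : SkewSymm t.B) (k : Fin 4) :
    iota (exch s.x s.B k) = exch t.x t.B (em (Sum.inl k)) := by
  obtain ⟨r6, r7, r8⟩ := h.row ht k
  unfold Pool.Agent.LibSP.exch
  rw [prod9, prod9, r6, r7, r8]
  simp only [map_div₀, map_add, map_prod, map_pow, h.hx, h.hB]
  simp

theorem Emb.mut {s : Seed K₀ 4 2} {t : Seed K₁ 9 0} (h : Emb s t) (ht : Fair t) (k : Fin 4) :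
    Emb (s.mut k) (t.mut (em (Sum.inl k))) := by
  have hk6 : em (Sum.inl k) ≠ 6 ∧ em (Sum.inl k) ≠ 7 ∧ em (Sum.inl k) ≠ 8 ∧
      ∀ j : Fin 9, 6 ≤ j → j ≠ em (Sum.inl k) := by
    fin_cases k <;> decide
  have hrow : ∀ j : Fin 9, j = 6 ∨ j = 7 ∨ j = 8 → t.B (vi (em (Sum.inl k))) j = 0 := by
    rintro j (rfl | rfl | rfl)
    · rw [h.c6]
      fin_cases k <;> rfl
    · rw [h.c7]
      fin_cases k <;> rfl
    · rw [h.c8]
      fin_cases k <;> rfl
  have hcol : ∀ j : Fin 9, j = 6 ∨ j = 7 ∨ j = 8 → ∀ i : Fin 9,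
      mutMat t.B (em (Sum.inl k)) (vi i) j = t.B (vi i) j := by
    intro j hj i
    have hne : j ≠ em (Sum.inl k) := by
      rcases hj with rfl | rfl | rfl
      · exact hk6.1.symm
      · exact hk6.2.1.symm
      · exact hk6.2.2.1.symm
    by_cases hi : i = em (Sum.inl k)
    · subst hi
      rw [mutMat_row, hrow j hj, neg_zero]
    · rw [mutMat_off _ _ _ _ (by simpa [vi] using hi) hne]
      change t.B (vi i) j + _ * t.B (vi (em (Sum.inl k))) j + _ * max (-t.B (vi (em (Sum.inl k))) j) 0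
        = _
      rw [hrow j hj]
      simp
  refine ⟨fun i => ?_, fun i j => ?_, fun i => ?_, fun i => ?_, fun i => ?_, fun j hj => ?_⟩
  · by_cases hi : i = Sum.inl k
    · subst hi
      rw [mut_x_self]
      change _ = (t.mut (em (Sum.inl k))).x (Sum.inl (em (Sum.inl k)))
      rw [mut_x_self, h.exch ht.ss]
    · rw [mut_x_of_ne _ _ hi, mut_x_of_ne _ _ (by
        intro hcon
        exact hi (em_injective (by simpa [vi] using hcon))), h.hx]
  · change mutMat t.B (em (Sum.inl k)) (vi (em i)) (em (Sum.inl j)) = mutMat s.B k i j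
    have e1 : ∀ i : Idx 4 2, vi (em i) = Sum.inl (em (Sum.inl k)) ↔ i = Sum.inl k := by
      intro i
      constructor
      · intro hcon
        exact em_injective (by simpa [vi] using hcon)
      · rintro rfl
        rfl
    have e2 : em (Sum.inl j) = em (Sum.inl k) ↔ j = k := by
      constructor
      · intro hcon
        simpa using em_injective hcon
      · rintro rfl
        rfl
    have e3 : ∀ j : Fin 4, t.B (Sum.inl (em (Sum.inl k))) (em (Sum.inl j)) = s.B (Sum.inl k) j :=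
      fun j => h.hB (Sum.inl k) j
    unfold mutMat
    simp only [e1, e2, h.hB, e3]
  · rw [← h.c6]; exact hcol 6 (by simp) i
  · rw [← h.c7]; exact hcol 7 (by simp) i
  · rw [← h.c8]; exact hcol 8 (by simp) i
  · rw [mut_x_of_ne _ _ (by
      intro hcon
      exact hk6.2.2.2 j hj (by simpa [vi] using hcon)), h.hh j hj]

theorem exists_emb {s : Seed K₀ 4 2} (hs : Reach S₀ s) : ∃ t, Reach S₁ t ∧ Emb s t := by
  induction hs with
  | refl => exact ⟨S₁, Reach.refl, emb_init⟩
  | @step s k hs' ih =>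
    obtain ⟨t, ht, he⟩ := ih
    exact ⟨t.mut (em (Sum.inl k)), Reach.step _ ht, he.mut (fair_of_reach fair_S₁ ht) k⟩

/-- Cluster variables of the quiver. -/
def IsCV (y : K₁) : Prop := ∃ s, Reach S₁ s ∧ ∃ k : Fin 9, y = s.x (Sum.inl k)

theorem cv_iota {y : K₀} (hy : IsClusterVar y) : IsCV (iota y) := by
  obtain ⟨s, hs, k, rfl⟩ := hy
  obtain ⟨t, ht, he⟩ := exists_emb hs
  exact ⟨t, ht, em (Sum.inl k), he.hx _⟩

end Pool.Agent.LibCF
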