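import Pool.Agent.LibCF.Quiver

/-!
Elements of nonpositive degree come from the six-variable algebra.
-/

set_option autoImplicit false

namespace Pool.Agent.LibCF

open Pool.Agent.LibSP MvPolynomial

/-- The degree in the block variables. -/
def D2 : Idx 9 0 → ℤ × ℤ :=
  Sum.elim ![(0, 0), (0, 0), (0, 0), (0, 0), (0, 0), (0, 0), (1, 0), (1, 0), (1, 0)] Fin.elim0

/-- The bidegree. -/
def D1 : Idx 9 0 → ℤ × ℤ :=
  Sum.elim ![(2, 1), (2, 0), (0, 2), (1, 2), (0, 3), (3, 0), (0, 0), (1, -1), (1, 0)] Fin.elim0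

lemma sum9 {M : Type} [AddCommMonoid M] (F : Idx 9 0 → M) :
    ∑ i, F i = F (vi 0) + (F (vi 1) + (F (vi 2) + (F (vi 3) + (F (vi 4) + (F (vi 5) + (F (vi 6) +
      (F (vi 7) + F (vi 8)))))))) := by
  rw [Fintype.sum_sum_type]
  simp only [Finset.univ_eq_empty, Finset.sum_empty, add_zero, Fin.sum_univ_succ]
  simp only [vi, Fin.sum_univ_zero, add_zero]
  rfl

/-- A sum over the nine variables. -/
lemma prod9_sum {M : Type} [AddCommMonoid M] (F : Idx 9 0 → M) :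
    ∑ i, F i = (∑ i : Idx 4 2, F (vi (em i))) + (F (vi 6) + F (vi 7) + F (vi 8)) := by
  rw [Fintype.sum_sum_type, Fintype.sum_sum_type]
  simp only [Finset.univ_eq_empty, Finset.sum_empty, add_zero, Fin.sum_univ_succ]
  simp only [em, Sum.elim_inl, Sum.elim_inr, vi, Fin.sum_univ_zero, add_zero, add_assoc]
  rfl

lemma D2_balanced (k : Fin 9) : ∑ i, quiB i k • D2 i = 0 := by
  rw [sum9]
  fin_cases k <;> decide

lemma D1_balanced (k : Fin 9) : ∑ i, quiB i k • D1 i = 0 := by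
  rw [sum9]
  fin_cases k <;> decide

lemma deg_D2 (m : Idx 9 0 → ℤ) : deg D2 m = (m (vi 6) + m (vi 7) + m (vi 8), 0) := by
  rw [deg, sum9]
  simp [D2, vi]
  ring

lemma D2_em (i : Idx 4 2) : D2 (vi (em i)) = (0, 0) := by
  rcases i with i | i <;> fin_cases i <;> rfl

lemma D1_em (i : Idx 4 2) : D1 (vi (em i)) = DD i := by
  rcases i with i | i <;> fin_cases i <;> rfl

/-- Two homomorphisms on the old field which agree on the variables are equal. -/
lemma hom_ext' {F : Type} [Field F] (f g : K₀ →+* F) (h : ∀ i, f (S₀.x i) = g (S₀.x i)) :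
    f = g := by
  apply IsLocalization.ringHom_ext (nonZeroDivisors (MvPolynomial (Idx 4 2) ℚ))
  apply MvPolynomial.ringHom_ext
  · intro a
    have : (f.comp (algebraMap (MvPolynomial (Idx 4 2) ℚ) K₀)).comp C =
        (g.comp (algebraMap (MvPolynomial (Idx 4 2) ℚ) K₀)).comp C := Subsingleton.elim _ _
    exact RingHom.congr_fun this a
  · intro i
    exact h i

lemma theta_iota {θ : K₁ →+* K₁} (hθ : ∀ i, Hg θ (S₁.x i) (D2 i)) (v : K₀) :
    θ (iota v) = iota v := by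
  have : θ.comp iota = iota := by
    apply hom_ext'
    intro i
    rw [RingHom.comp_apply, iota_x, hθ, D2_em]
    simp
  exact RingHom.congr_fun this v

lemma em_surj (j : Fin 9) (hj : j < 6) : ∃ i, em i = j := by
  fin_cases j
  · exact ⟨Sum.inl 0, rfl⟩
  · exact ⟨Sum.inl 1, rfl⟩
  · exact ⟨Sum.inl 2, rfl⟩
  · exact ⟨Sum.inl 3, rfl⟩
  · exact ⟨Sum.inr 0, rfl⟩
  · exact ⟨Sum.inr 1, rfl⟩
  · exact absurd hj (by decide)
  · exact absurd hj (by decide)
  · exact absurd hj (by decide)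

lemma hg_emb {θ : K₁ →+* K₁} (hθ : ∀ i, Hg θ (S₁.x i) (D2 i)) {s : Seed K₀ 4 2}
    {t : Seed K₁ 9 0} (he : Emb s t) (i : Idx 9 0) : Hg θ (t.x i) (D2 i) := by
  rcases i with j | j
  · rcases lt_or_ge j 6 with hj | hj
    · obtain ⟨i, rfl⟩ := em_surj j hj
      have h1 : t.x (Sum.inl (em i)) = iota (s.x i) := (he.hx i).symm
      have h2 : D2 (Sum.inl (em i)) = (0, 0) := D2_em i
      rw [h1, h2, Hg, theta_iota hθ]
      simp
    · have h1 : t.x (Sum.inl j) = S₁.x (Sum.inl j) := he.hh j hj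
      rw [h1]
      exact hθ _
  · exact j.elim0

lemma Lau.sum' {K : Type} [Field K] {n r : ℕ} {ι : Type} (x : Idx n r → K) (S : Finset ι)
    (f : ι → K) (hf : ∀ i ∈ S, Lau x (f i)) : Lau x (∑ i ∈ S, f i) := by
  classical
  induction S using Finset.induction_on with
  | empty =>
    have := Pool.Agent.LibSP.Lau.int x 0
    simpa using this
  | insert i S hi ih =>
    rw [Finset.sum_insert hi]
    exact Pool.Agent.LibSP.Lau.add (hf i (Finset.mem_insert_self i S))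
      (ih fun j hj => hf j (Finset.mem_insert_of_mem hj))

/-- The exponents of `f` and `g` are nonnegative. -/
lemma fg_nonneg {t : Seed K₁ 9 0} (ht : Fair t)
    (c6 : ∀ i, t.B (vi i) 6 = ![0, 0, 0, 0, -2, 0, 0, -6, 6] i)
    (c7 : ∀ i, t.B (vi i) 7 = ![0, 0, 0, 0, 0, 2, 6, 0, -6] i)
    (c8 : ∀ i, t.B (vi i) 8 = ![0, 0, 0, 0, 2, -2, -6, 6, 0] i)
    {L : Lp 9 0} (hL : ∀ k : Fin 9, Lau (t.mut k).x (ev t.x L))
    (h0 : ∀ m, L.coeff m ≠ 0 → m (vi 6) = 0 ∧ m (vi 7) = 0 ∧ m (vi 8) = 0) :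
    ∀ m, L.coeff m ≠ 0 → 0 ≤ m (vi 4) ∧ 0 ≤ m (vi 5) := by
  by_cases hL0 : L = 0
  · intro m hm
    rw [hL0] at hm
    simp at hm
  obtain ⟨a4, l4, e4⟩ := exists_low (vi 4) hL0
  obtain ⟨a5, l5, e5⟩ := exists_low (vi 5) hL0
  obtain ⟨L4, -, h4⟩ := hL 4
  obtain ⟨L5, -, h5⟩ := hL 5
  rw [mut_x] at h4 h5
  have b84 : t.B (vi 8) 4 = -2 := by
    have := ht.ss 8 4
    have h' := c8 4
    change t.B (vi 8) 4 = -t.B (vi 4) 8 at this
    rw [this, h']
    rfl
  have b75 : t.B (vi 7) 5 = -2 := by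
    have := ht.ss 7 5
    have h' := c7 5
    change t.B (vi 7) 5 = -t.B (vi 5) 7 at this
    rw [this, h']
    rfl
  have d4 : t.B (vi 4) 4 = 0 := ht.ss.diag 4
  have d5 : t.B (vi 5) 5 = 0 := ht.ss.diag 5
  have s4 := spread ht.ai (vi 4) _ _ (Pi.single (vi 8) 1) (by simp [d4]) (by simp [d4])
    (by simp [vi]) (by rw [dot_coord, dot_coord]; simp [b84]) h4 l4 e4
  have s5 := spread ht.ai (vi 5) _ _ (Pi.single (vi 7) 1) (by simp [d5]) (by simp [d5])
    (by simp [vi]) (by rw [dot_coord, dot_coord]; simp [b75]) h5 l5 e5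
  simp only [dot_coord, b84, b75] at s4 s5
  obtain ⟨m, m', hm, hm', -, -, s4⟩ := s4
  obtain ⟨u, u', hu, hu', -, -, s5⟩ := s5
  rw [(h0 m hm).2.2, (h0 m' hm').2.2] at s4
  rw [(h0 u hu).2.1, (h0 u' hu').2.1] at s5
  have b4 : a4 ≤ 0 := by
    simp at s4
    linarith
  have b5 : a5 ≤ 0 := by
    simp at s5
    linarith
  intro x hx
  have x4 := l4 x hx
  have x5 := l5 x hx
  omega

/-- Descent at one seed. -/
theorem descend {θ : K₁ →+* K₁} (hθ : ∀ i, Hg θ (S₁.x i) (D2 i)) {u : K₁} (hu : Univ S₁ u)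
    {D : ℤ} (hD : D ≤ 0) (hg : Hg θ u (D, 0)) {s : Seed K₀ 4 2} {t : Seed K₁ 9 0} (he : Emb s t)
    (ht : Reach S₁ t) : (∃ v, Lau s.x v ∧ iota v = u) ∧ (u ≠ 0 → D = 0) := by
  have hf := fair_of_reach fair_S₁ ht
  obtain ⟨L, -, hL⟩ := hu t ht
  have hdeg : ∀ m, L.coeff m ≠ 0 → m (vi 6) + m (vi 7) + m (vi 8) = D := by
    intro m hm
    have h1 := deg_of_hg hf.ai D2 (hg_emb hθ he) (d := (D, 0)) (by rw [hL]; exact hg) m hm
    rw [deg_D2] at h1
    simpa using h1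
  have hLm : ∀ k : Fin 9, Lau (t.mut k).x (ev t.x L) := by
    intro k
    rw [hL]
    exact hu _ (Reach.step k ht)
  have hb := block hf he.c6 he.c7 he.c8 hLm hD hdeg
  have hfg := fg_nonneg hf he.c6 he.c7 he.c8 hLm hb
  refine ⟨⟨∑ m ∈ L.coeff.support, (L.coeff m : K₀) * mono s.x (fun i => m (vi (em i))), ?_, ?_⟩, ?_⟩
  · refine Lau.sum' _ _ _ fun m hm => ?_
    have h1 := hfg m (Finsupp.mem_support_iff.1 hm)
    apply lau_mono
    intro j
    fin_cases j
    · exact h1.1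
    · exact h1.2
  · rw [← hL, ev, Finsupp.sum, map_sum]
    refine Finset.sum_congr rfl fun m hm => ?_
    obtain ⟨z6, z7, z8⟩ := hb m (Finsupp.mem_support_iff.1 hm)
    rw [map_mul, map_intCast, mono, mono, prod9, z6, z7, z8, map_prod]
    simp only [map_zpow₀, he.hx, zpow_zero, mul_one]
  · intro hu0
    have hL0 : L ≠ 0 := by
      rintro rfl
      rw [ev_zero] at hL
      exact hu0 hL.symm
    obtain ⟨m, hm, -⟩ := exists_min (Pi.single (vi 6) 1) hL0
    have h1 := hdeg m hm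
    obtain ⟨z6, z7, z8⟩ := hb m hm
    rw [z6, z7, z8] at h1
    omega

/-- Descent. -/
theorem descend_univ {θ : K₁ →+* K₁} (hθ : ∀ i, Hg θ (S₁.x i) (D2 i)) {u : K₁}
    (hu : Univ S₁ u) {D : ℤ} (hD : D ≤ 0) (hg : Hg θ u (D, 0)) :
    ∃ v, Univ S₀ v ∧ iota v = u := by
  obtain ⟨⟨v, hv, hvu⟩, -⟩ := descend hθ hu hD hg emb_init Reach.refl
  refine ⟨v, upper good_S₀ Reach.refl hv fun k => ?_, hvu⟩
  obtain ⟨⟨v', hv', hvu'⟩, -⟩ := descend hθ hu hD hg (emb_init.mut fair_S₁ k)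
    (Reach.step _ Reach.refl)
  have : v' = v := iota_injective (by rw [hvu', hvu])
  rwa [this] at hv'

/-- All elements of the cluster algebra are universally Laurent. -/
theorem univ_of_mem' {u : K₁} (hu : u ∈ clusterAlg S₁) : Univ S₁ u := by
  have hm : ∀ u v : K₁, Univ S₁ u → Univ S₁ v → Univ S₁ (u * v) := fun u v h h' s hs =>
    Pool.Agent.LibSP.Lau.mul (fun i => ne_zero_of_ai (fair_of_reach fair_S₁ hs).ai i) (h s hs)
      (h' s hs)
  unfold clusterAlg at hu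
  induction hu using Subring.closure_induction with
  | mem y hy =>
    obtain ⟨s, hs, i, rfl⟩ := hy
    exact fun t ht => laurent_quiver fair_S₁ hs ht i
  | zero =>
    intro s _
    have := Pool.Agent.LibSP.Lau.int s.x 0
    simpa using this
  | one => exact fun s _ => Lau.one s.x
  | add x y _ _ hx hy => exact hx.add hy
  | neg x _ hx => exact hx.neg
  | mul x y _ _ hx hy => exact hm _ _ hx hy

end Pool.Agent.LibCF
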